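import Mathlib

set_option autoImplicit false
set_option linter.unusedSectionVars false
set_option linter.unusedVariables false

/-!
Weight functions on a finite set under a group of permutations, and their cards.
-/

namespace Run7.h357.TW

open Finset Classical

variable {X : Type} [Fintype X]

/-- lower the value at `z` by one -/
noncomputable def low (c : X → ℕ) (z : X) : X → ℕ := fun x => if x = z then c x - 1 else c x

/-- lower the values on `B` by one -/
noncomputable def sub (w : X → ℕ) (B : Finset X) : X → ℕ := fun y => if y ∈ B then w y - 1 else w y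

/-- the number of the members of `Γ` which carry `a` below `c` -/
noncomputable def cnt (Γ : Finset (Equiv.Perm X)) (a c : X → ℕ) : ℕ :=
  (Γ.filter (fun γ => ∀ y, a y ≤ c (γ y))).card

theorem cnt_inv {Γ : Finset (Equiv.Perm X)} (hmul : ∀ γ ∈ Γ, ∀ δ ∈ Γ, γ * δ ∈ Γ)
    (hinv : ∀ γ ∈ Γ, γ⁻¹ ∈ Γ) (a c : X → ℕ) {δ : Equiv.Perm X} (hδ : δ ∈ Γ) :
    cnt Γ a (fun x => c (δ x)) = cnt Γ a c := by
  unfold cnt
  refine Finset.card_nbij' (fun γ => δ * γ) (fun γ => δ⁻¹ * γ) ?_ ?_ ?_ ?_
  · intro γ hγ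
    rw [mem_coe, mem_filter] at hγ ⊢
    exact ⟨hmul _ hδ _ hγ.1, fun y => hγ.2 y⟩
  · intro γ hγ
    rw [mem_coe, mem_filter] at hγ ⊢
    refine ⟨hmul _ (hinv _ hδ) _ hγ.1, fun y => ?_⟩
    have h3 : δ ((δ⁻¹ * γ) y) = γ y := by
      rw [← Equiv.Perm.mul_apply, mul_inv_cancel_left]
    show a y ≤ c (δ ((δ⁻¹ * γ) y))
    rw [h3]
    exact hγ.2 y
  · intro γ _
    exact inv_mul_cancel_left δ γ
  · intro γ _
    exact mul_inv_cancel_left δ γ

theorem main_count {Γ : Finset (Equiv.Perm X)} (w c : X → ℕ) (B : Finset X) (s : ℕ) (hs : 2 ≤ s)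
    (hB : ∀ y ∈ B, w y ≤ s)
    (hdist : ∀ j, (univ.filter (fun x => j ≤ c x)).card = (univ.filter (fun x => j ≤ w x)).card) :
    ∑ z ∈ univ.filter (fun z => c z = s), cnt Γ (sub w B) (low c z) =
      (B.filter (fun y => w y = s)).card * cnt Γ (sub w B) c := by
  have h1 : ∑ z ∈ univ.filter (fun z => c z = s), cnt Γ (sub w B) (low c z) =
      ∑ γ ∈ Γ, ((univ.filter (fun z => c z = s)).filter
        (fun z => ∀ y, sub w B y ≤ low c z (γ y))).card :=
    Finset.sum_card_bipartiteAbove_eq_sum_card_bipartiteBelow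
      (fun (z : X) (γ : Equiv.Perm X) => ∀ y, sub w B y ≤ low c z (γ y))
  rw [h1]
  have h2 : ∀ γ ∈ Γ, ((univ.filter (fun z => c z = s)).filter
        (fun z => ∀ y, sub w B y ≤ low c z (γ y))).card =
      if ∀ y, sub w B y ≤ c (γ y) then (B.filter (fun y => w y = s)).card else 0 := by
    intro γ _
    split_ifs with hg
    · -- level sets
      have hE : ∀ j, (univ.filter (fun x => j ≤ sub w B (γ.symm x))).card =
          (univ.filter (fun y => j ≤ sub w B y)).card := by
        intro j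
        refine Finset.card_bij (fun x _ => γ.symm x) ?_ ?_ ?_
        · intro x hx
          rw [mem_filter] at hx ⊢
          exact ⟨mem_univ _, hx.2⟩
        · intro x _ y _ h
          exact γ.symm.injective h
        · intro y hy
          rw [mem_filter] at hy
          refine ⟨γ y, ?_, by simp⟩
          rw [mem_filter]
          exact ⟨mem_univ _, by simpa using hy.2⟩
      have hsubE : ∀ j, univ.filter (fun x => j ≤ sub w B (γ.symm x)) ⊆
          univ.filter (fun x => j ≤ c x) := by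
        intro j x hx
        rw [mem_filter] at hx ⊢
        refine ⟨mem_univ _, hx.2.trans ?_⟩
        have := hg (γ.symm x)
        simpa using this
      have htop : univ.filter (fun x => s + 1 ≤ sub w B (γ.symm x)) =
          univ.filter (fun x => s + 1 ≤ c x) := by
        refine Finset.eq_of_subset_of_card_le (hsubE _) ?_
        rw [hE, hdist]
        apply card_le_card
        intro y hy
        rw [mem_filter] at hy ⊢
        refine ⟨mem_univ _, ?_⟩
        have hyB : y ∉ B := fun h => by have := hB y h; omega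
        unfold sub
        rw [if_neg hyB]
        exact hy.2
      have hset : (univ.filter (fun z => c z = s)).filter
          (fun z => ∀ y, sub w B y ≤ low c z (γ y)) =
          univ.filter (fun x => s ≤ c x) \ univ.filter (fun x => s ≤ sub w B (γ.symm x)) := by
        ext z
        rw [mem_filter, mem_filter, mem_sdiff, mem_filter, mem_filter]
        constructor
        · rintro ⟨⟨_, hz⟩, h⟩
          refine ⟨⟨mem_univ _, hz.ge⟩, fun h' => ?_⟩
          have h3 := h (γ.symm z)
          rw [Equiv.apply_symm_apply] at h3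
          unfold low at h3
          rw [if_pos rfl, hz] at h3
          omega
        · rintro ⟨⟨_, hz⟩, h⟩
          have h' : ¬ s ≤ sub w B (γ.symm z) := fun hh => h ⟨mem_univ _, hh⟩
          have hzs : c z = s := by
            by_contra hne
            have hz1 : z ∈ univ.filter (fun x => s + 1 ≤ c x) := by
              rw [mem_filter]; exact ⟨mem_univ _, by omega⟩
            rw [← htop, mem_filter] at hz1
            omega
          refine ⟨⟨mem_univ _, hzs⟩, fun y => ?_⟩
          unfold low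
          split_ifs with hy
          · have hy' : y = γ.symm z := by rw [← hy]; simp
            rw [hy, hzs, hy']
            omega
          · exact hg y
      rw [hset, card_sdiff_of_subset (hsubE s), hE, hdist]
      have hsub' : univ.filter (fun y => s ≤ sub w B y) ⊆ univ.filter (fun x => s ≤ w x) := by
        intro y hy
        rw [mem_filter] at hy ⊢
        refine ⟨mem_univ _, hy.2.trans ?_⟩
        unfold sub
        split_ifs <;> omega
      rw [← card_sdiff_of_subset hsub']
      congr 1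
      ext y
      rw [mem_sdiff, mem_filter, mem_filter, mem_filter]
      unfold sub
      constructor
      · rintro ⟨⟨_, h3⟩, h4⟩
        split_ifs at h4 with hy
        · refine ⟨hy, le_antisymm (hB y hy) h3⟩
        · exact absurd ⟨mem_univ _, h3⟩ h4
      · rintro ⟨hy, h3⟩
        rw [if_pos hy]
        refine ⟨⟨mem_univ _, h3.ge⟩, ?_⟩
        rintro ⟨_, h4⟩
        omega
    · rw [card_eq_zero, filter_eq_empty_iff]
      intro z _ h
      apply hg
      intro y
      refine (h y).trans ?_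
      unfold low
      split_ifs <;> omega
  rw [Finset.sum_congr rfl h2, ← Finset.sum_filter, sum_const, smul_eq_mul, mul_comm]
  rfl

/-- The hypotheses of the abstract theorem: `w` and `w'` have the same cards at the points with
value in `S`. -/
structure Same (Γ : Finset (Equiv.Perm X)) (S : Set ℕ) (w w' : X → ℕ) : Prop where
  one : (1 : Equiv.Perm X) ∈ Γ
  mul : ∀ γ ∈ Γ, ∀ δ ∈ Γ, γ * δ ∈ Γ
  inv : ∀ γ ∈ Γ, γ⁻¹ ∈ Γ
  deck : ∀ s ∈ S, 2 ≤ s → ∀ Ψ : (X → ℕ) → ℕ, (∀ c : X → ℕ, ∀ γ ∈ Γ, Ψ (fun x => c (γ x)) = Ψ c) →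
    ∑ z ∈ univ.filter (fun z => w z = s), Ψ (low w z) =
      ∑ z ∈ univ.filter (fun z => w' z = s), Ψ (low w' z)
  dist : ∀ j, (univ.filter (fun x => j ≤ w' x)).card = (univ.filter (fun x => j ≤ w x)).card
  sum : ∑ x, w' x = ∑ x, w x
  ne : ∀ γ ∈ Γ, ∃ x, w x ≠ w' (γ x)
  pos : ∀ x, 1 ≤ w x
  big : Fintype.card X + 2 ≤ ∑ x, w x

theorem cnt_eq {Γ : Finset (Equiv.Perm X)} {S : Set ℕ} {w w' : X → ℕ} (h : Same Γ S w w')
    (B : Finset X) (hBS : ∀ y ∈ B, w y ∈ S) (hB : ∀ y ∈ B, 2 ≤ w y) (hne : B.Nonempty) :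
    cnt Γ (sub w B) w = cnt Γ (sub w B) w' := by
  obtain ⟨y₀, hy₀, hmax⟩ := Finset.exists_max_image B w hne
  have hs := hB y₀ hy₀
  have h1 := main_count (Γ := Γ) w w B (w y₀) hs hmax (fun _ => rfl)
  have h2 := main_count (Γ := Γ) w w' B (w y₀) hs hmax h.dist
  have h3 := h.deck (w y₀) (hBS y₀ hy₀) hs (cnt Γ (sub w B)) (fun c γ hγ => cnt_inv h.mul h.inv _ _ hγ)
  have h4 : 0 < (B.filter (fun y => w y = w y₀)).card :=
    card_pos.mpr ⟨y₀, mem_filter.mpr ⟨hy₀, rfl⟩⟩
  apply Nat.eq_of_mul_eq_mul_left h4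
  rw [← h1, ← h2, h3]

/-- the members `γ` of `Γ` with `w ≤ c ∘ γ` outside `B` and `w = c ∘ γ + 1` on `B` -/
noncomputable def ex (Γ : Finset (Equiv.Perm X)) (w c : X → ℕ) (B : Finset X) :
    Finset (Equiv.Perm X) :=
  Γ.filter (fun γ => (∀ y ∈ B, w y = c (γ y) + 1) ∧ ∀ y, y ∉ B → w y ≤ c (γ y))

theorem cnt_sum (Γ : Finset (Equiv.Perm X)) (w c : X → ℕ) (B : Finset X) :
    cnt Γ (sub w B) c = ∑ D ∈ B.powerset, (ex Γ w c D).card := by
  have hdis : ((B.powerset : Finset (Finset X)) : Set (Finset X)).PairwiseDisjoint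
      (fun D => ex Γ w c D) := by
    intro D _ D' _ hne
    rw [Function.onFun, disjoint_left]
    intro γ h1 h2
    apply hne
    unfold ex at h1 h2
    rw [mem_filter] at h1 h2
    ext y
    constructor
    · intro hy
      by_contra hy'
      have := h1.2.1 y hy
      have := h2.2.2 y hy'
      omega
    · intro hy
      by_contra hy'
      have := h2.2.1 y hy
      have := h1.2.2 y hy'
      omega
  rw [← card_biUnion hdis]
  unfold cnt
  congr 1
  ext γ
  rw [mem_filter, mem_biUnion]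
  constructor
  · rintro ⟨hγ, h⟩
    refine ⟨univ.filter (fun y => w y = c (γ y) + 1), ?_, ?_⟩
    · rw [mem_powerset]
      intro y hy
      rw [mem_filter] at hy
      by_contra hyB
      have h3 := h y
      unfold sub at h3
      rw [if_neg hyB] at h3
      omega
    · unfold ex
      rw [mem_filter]
      refine ⟨hγ, fun y hy => (mem_filter.mp hy).2, fun y hy => ?_⟩
      have h3 := h y
      unfold sub at h3
      have h4 : ¬ w y = c (γ y) + 1 := fun h' => hy (mem_filter.mpr ⟨mem_univ _, h'⟩)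
      split_ifs at h3 <;> omega
  · rintro ⟨D, hD, hγ⟩
    rw [mem_powerset] at hD
    unfold ex at hγ
    rw [mem_filter] at hγ
    refine ⟨hγ.1, fun y => ?_⟩
    unfold sub
    by_cases hy : y ∈ D
    · rw [if_pos (hD hy)]
      have := hγ.2.1 y hy
      omega
    · have := hγ.2.2 y hy
      split_ifs <;> omega

theorem ex_diff {Γ : Finset (Equiv.Perm X)} {S : Set ℕ} {w w' : X → ℕ} (h : Same Γ S w w')
    (B : Finset X) (hBS : ∀ y ∈ B, w y ∈ S) (hB : ∀ y ∈ B, 2 ≤ w y) :
    ((ex Γ w w B).card : ℤ) - (ex Γ w w' B).card =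
      (-1) ^ B.card * ((ex Γ w w ∅).card : ℤ) := by
  induction B using Finset.strongInduction with
  | H B ih =>
    have hempty : ex Γ w w' ∅ = ∅ := by
      rw [eq_empty_iff_forall_notMem]
      intro γ hγ
      unfold ex at hγ
      rw [mem_filter] at hγ
      obtain ⟨x, hx⟩ := h.ne γ hγ.1
      have h1 : ∀ y, w y ≤ w' (γ y) := fun y => hγ.2.2 y (notMem_empty _)
      have h2 : ∑ y, w' (γ y) = ∑ y, w' y := Equiv.sum_comp γ w'
      have h3 : ∑ y, w y < ∑ y, w' (γ y) :=
        Finset.sum_lt_sum (fun y _ => h1 y) ⟨x, mem_univ _, lt_of_le_of_ne (h1 x) hx⟩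
      rw [h2, h.sum] at h3
      exact lt_irrefl _ h3
    rcases B.eq_empty_or_nonempty with rfl | hne
    · rw [hempty]; simp
    · have h1 : ∑ D ∈ B.powerset, (((ex Γ w w D).card : ℤ) - (ex Γ w w' D).card) = 0 := by
        rw [sum_sub_distrib]
        have h2 := cnt_sum Γ w w B
        have h3 := cnt_sum Γ w w' B
        rw [cnt_eq h B hBS hB hne, h3] at h2
        have h4 : ((∑ D ∈ B.powerset, (ex Γ w w' D).card : ℕ) : ℤ) =
            ((∑ D ∈ B.powerset, (ex Γ w w D).card : ℕ) : ℤ) := by rw [h2]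
        rw [Nat.cast_sum, Nat.cast_sum] at h4
        rw [h4, sub_self]
      have h5 : ∑ D ∈ B.powerset, (-1 : ℤ) ^ D.card * ((ex Γ w w ∅).card : ℤ) = 0 := by
        rw [← Finset.sum_mul, Finset.sum_powerset_neg_one_pow_card_of_nonempty hne, zero_mul]
      rw [← Finset.sum_erase_add _ _ (mem_powerset_self B)] at h1 h5
      have h6 : ∑ D ∈ B.powerset.erase B, (((ex Γ w w D).card : ℤ) - (ex Γ w w' D).card) =
          ∑ D ∈ B.powerset.erase B, (-1 : ℤ) ^ D.card * ((ex Γ w w ∅).card : ℤ) := by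
        apply sum_congr rfl
        intro D hD
        rw [mem_erase, mem_powerset] at hD
        exact ih D ⟨hD.2, fun h' => hD.1 (subset_antisymm hD.2 h')⟩ (fun y hy => hBS y (hD.2 hy))
          (fun y hy => hB y (hD.2 hy))
      rw [h6] at h1
      linarith

theorem ex_pos {Γ : Finset (Equiv.Perm X)} {S : Set ℕ} {w w' : X → ℕ} (h : Same Γ S w w')
    (B : Finset X) (hBS : ∀ y ∈ B, w y ∈ S) (hB : ∀ y ∈ B, 2 ≤ w y) : 0 < (ex Γ w w B).card + (ex Γ w w' B).card := by
  have h1 := ex_diff h B hBS hB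
  have h2 : 0 < (ex Γ w w ∅).card := by
    apply card_pos.mpr
    refine ⟨1, ?_⟩
    unfold ex
    rw [mem_filter]
    refine ⟨h.one, fun y hy => absurd hy (notMem_empty _), fun y _ => ?_⟩
    rw [Equiv.Perm.one_apply]
  by_contra hcon
  have h3 : (ex Γ w w B).card = 0 := by omega
  have h4 : (ex Γ w w' B).card = 0 := by omega
  rw [h3, h4] at h1
  rcases neg_one_pow_eq_or ℤ B.card with h5 | h5
  · rw [h5] at h1
    push_cast at h1
    omega
  · rw [h5] at h1
    push_cast at h1
    omega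

/-- **Mueller type bound.** -/
theorem pow_le {Γ : Finset (Equiv.Perm X)} {w w' : X → ℕ} (h : Same Γ Set.univ w w') :
    2 ^ (univ.filter (fun x => 2 ≤ w x)).card * (Γ.filter (fun γ => ∀ y, w (γ y) = w y)).card ≤
      2 * (Γ.filter (fun γ => ∀ y, w y ≤ w (γ y) + 1)).card := by
  set A := univ.filter (fun x => 2 ≤ w x) with hA
  have hstab : (ex Γ w w ∅).card = (Γ.filter (fun γ => ∀ y, w (γ y) = w y)).card := by
    congr 1
    ext γ
    unfold ex
    rw [mem_filter, mem_filter]
    constructor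
    · rintro ⟨h1, h2⟩
      refine ⟨h1, ?_⟩
      have h3 : ∀ y, w y ≤ w (γ y) := fun y => h2.2 y (notMem_empty _)
      have h4 : ∑ y, w (γ y) = ∑ y, w y := Equiv.sum_comp γ w
      intro y
      by_contra hne
      have h5 : ∑ y, w y < ∑ y, w (γ y) :=
        Finset.sum_lt_sum (fun y _ => h3 y) ⟨y, mem_univ _, lt_of_le_of_ne (h3 y) (Ne.symm hne)⟩
      omega
    · rintro ⟨h1, h2⟩
      exact ⟨h1, fun y hy => absurd hy (notMem_empty _), fun y _ => (h2 y).ge⟩
  have h1 : ∑ B ∈ A.powerset, (ex Γ w w B).card =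
      (Γ.filter (fun γ => ∀ y, w y ≤ w (γ y) + 1)).card := by
    rw [← cnt_sum]
    unfold cnt
    congr 1
    ext γ
    rw [mem_filter, mem_filter]
    constructor
    · rintro ⟨h1, h2⟩
      refine ⟨h1, fun y => ?_⟩
      have h3 := h2 y
      unfold sub at h3
      split_ifs at h3 <;> omega
    · rintro ⟨h1, h2⟩
      refine ⟨h1, fun y => ?_⟩
      have h3 := h2 y
      unfold sub
      split_ifs with hy
      · omega
      · have h4 : ¬ 2 ≤ w y := fun h' => hy (mem_filter.mpr ⟨mem_univ _, h'⟩)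
        have := h.pos (γ y)
        omega
  have h2 : ∑ B ∈ A.powerset, (1 + (-1 : ℤ) ^ B.card) * ((ex Γ w w ∅).card : ℤ) ≤
      ∑ B ∈ A.powerset, 2 * ((ex Γ w w B).card : ℤ) := by
    apply sum_le_sum
    intro B hB
    rw [mem_powerset] at hB
    have h3 := ex_diff h B (fun y _ => Set.mem_univ _) (fun y hy => (mem_filter.mp (hB hy)).2)
    rcases neg_one_pow_eq_or ℤ B.card with h5 | h5
    · rw [h5] at h3 ⊢
      have : (0 : ℤ) ≤ (ex Γ w w' B).card := Nat.cast_nonneg _
      linarith
    · rw [h5]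
      have : (0 : ℤ) ≤ (ex Γ w w B).card := Nat.cast_nonneg _
      simp only [add_neg_cancel, zero_mul]
      linarith
  have hne : A.Nonempty := by
    by_contra hcon
    rw [not_nonempty_iff_eq_empty, hA, filter_eq_empty_iff] at hcon
    have h3 : ∑ x, w x ≤ ∑ _x : X, 1 := sum_le_sum (fun x _ => by
      have := hcon (mem_univ x)
      omega)
    rw [sum_const, smul_eq_mul, mul_one, card_univ] at h3
    have := h.big
    omega
  rw [← Finset.sum_mul, sum_add_distrib, Finset.sum_powerset_neg_one_pow_card_of_nonempty hne,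
    add_zero, sum_const, card_powerset, ← Finset.mul_sum, ← Nat.cast_sum, h1, hstab] at h2
  have h4 : ((2 ^ A.card * (Γ.filter (fun γ => ∀ y, w (γ y) = w y)).card : ℕ) : ℤ) ≤
      ((2 * (Γ.filter (fun γ => ∀ y, w y ≤ w (γ y) + 1)).card : ℕ) : ℤ) := by
    push_cast
    simpa using h2
  exact_mod_cast h4

/-- **Nash-Williams type criterion.** -/
theorem even_ex {Γ : Finset (Equiv.Perm X)} {w w' : X → ℕ} (h : Same Γ Set.univ w w')
    (B : Finset X) (hB : ∀ y ∈ B, 2 ≤ w y) (heven : Even B.card) : ∃ γ ∈ Γ,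
      (∀ y ∈ B, w y = w (γ y) + 1) ∧ ∀ y, y ∉ B → w y ≤ w (γ y) := by
  have h1 := ex_diff h B (fun y _ => Set.mem_univ _) hB
  rw [heven.neg_one_pow, one_mul] at h1
  have h2 : 0 < (ex Γ w w ∅).card := by
    apply card_pos.mpr
    refine ⟨1, ?_⟩
    unfold ex
    rw [mem_filter]
    refine ⟨h.one, fun y hy => absurd hy (notMem_empty _), fun y _ => ?_⟩
    rw [Equiv.Perm.one_apply]
  have h3 : 0 < (ex Γ w w B).card := by omega
  obtain ⟨γ, hγ⟩ := card_pos.mp h3
  unfold ex at hγ
  rw [mem_filter] at hγ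
  exact ⟨γ, hγ.1, hγ.2⟩

/-- the number of the members of `O` with value at least `j` -/
noncomputable def lev (O : Finset X) (c : X → ℕ) (j : ℕ) : ℕ := (O.filter (fun x => j ≤ c x)).card

theorem lev_inv {Γ : Finset (Equiv.Perm X)} (hinv : ∀ γ ∈ Γ, γ⁻¹ ∈ Γ) (O : Finset X)
    (hO : ∀ γ ∈ Γ, ∀ x ∈ O, γ x ∈ O) (c : X → ℕ) (j : ℕ) {γ : Equiv.Perm X} (hγ : γ ∈ Γ) :
    lev O (fun x => c (γ x)) j = lev O c j := by
  unfold lev
  refine Finset.card_nbij' (fun x => γ x) (fun x => γ⁻¹ x) ?_ ?_ ?_ ?_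
  · intro x hx
    rw [mem_coe, mem_filter] at hx ⊢
    exact ⟨hO γ hγ x hx.1, hx.2⟩
  · intro x hx
    rw [mem_coe, mem_filter] at hx ⊢
    refine ⟨hO _ (hinv γ hγ) x hx.1, ?_⟩
    have : γ (γ⁻¹ x) = x := by
      rw [← Equiv.Perm.mul_apply, mul_inv_cancel]; rfl
    show j ≤ c (γ (γ⁻¹ x))
    rw [this]
    exact hx.2
  · intro x _
    show γ⁻¹ (γ x) = x
    rw [← Equiv.Perm.mul_apply, inv_mul_cancel]; rfl
  · intro x _
    show γ (γ⁻¹ x) = x
    rw [← Equiv.Perm.mul_apply, mul_inv_cancel]; rfl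

theorem lev_split (O : Finset X) (c : X → ℕ) (j : ℕ) :
    lev O c j = (O.filter (fun x => c x = j)).card + lev O c (j + 1) := by
  unfold lev
  rw [← card_union_of_disjoint]
  · congr 1
    ext x
    rw [mem_union, mem_filter, mem_filter, mem_filter]
    constructor
    · rintro ⟨hO, hx⟩
      rcases Nat.lt_or_ge (c x) (j + 1) with h3 | h3
      · left; exact ⟨hO, by omega⟩
      · right; exact ⟨hO, h3⟩
    · rintro (⟨hO, hx⟩ | ⟨hO, hx⟩)
      · exact ⟨hO, hx.ge⟩
      · exact ⟨hO, by omega⟩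
  · rw [disjoint_left]
    intro x hx hx'
    rw [mem_filter] at hx hx'
    omega

theorem lev_low_ne (O : Finset X) (c : X → ℕ) (s j : ℕ) (hj : j ≠ s) (z : X) (hz : c z = s) :
    lev O (low c z) j = lev O c j := by
  unfold lev
  congr 1
  ext x
  rw [mem_filter, mem_filter]
  unfold low
  by_cases hx : x = z
  · rw [if_pos hx, hx, hz]
    constructor
    · rintro ⟨h1, h2⟩; exact ⟨h1, by omega⟩
    · rintro ⟨h1, h2⟩; exact ⟨h1, by omega⟩
  · rw [if_neg hx]

theorem lev_low_eq (O : Finset X) (c : X → ℕ) (s : ℕ) (hs : 1 ≤ s) (z : X) (hz : c z = s) :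
    lev O (low c z) s + (if z ∈ O then 1 else 0) = lev O c s := by
  unfold lev
  have h1 : (O.filter (fun x => s ≤ c x)).filter (fun x => x ≠ z) =
      O.filter (fun x => s ≤ low c z x) := by
    ext x
    rw [mem_filter, mem_filter, mem_filter]
    unfold low
    constructor
    · rintro ⟨⟨h1, h2⟩, h3⟩
      rw [if_neg h3]
      exact ⟨h1, h2⟩
    · rintro ⟨h1, h2⟩
      by_cases hx : x = z
      · rw [if_pos hx, hx, hz] at h2
        omega
      · rw [if_neg hx] at h2
        exact ⟨⟨h1, h2⟩, hx⟩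
  rw [← h1]
  split_ifs with hzO
  · have h2 : (O.filter (fun x => s ≤ c x)).filter (fun x => x ≠ z) =
        (O.filter (fun x => s ≤ c x)).erase z := by
      rw [filter_ne']
    rw [h2, card_erase_add_one]
    rw [mem_filter]
    exact ⟨hzO, hz.ge⟩
  · rw [add_zero]
    congr 1
    rw [filter_eq_self]
    intro x hx
    rintro rfl
    exact hzO (mem_filter.mp hx).1

/-- the numbers of the members of an invariant set with given value agree -/
theorem num_eq {Γ : Finset (Equiv.Perm X)} {S : Set ℕ} {w w' : X → ℕ} (h : Same Γ S w w')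
    (s : ℕ) : (univ.filter (fun z => w z = s)).card = (univ.filter (fun z => w' z = s)).card := by
  have h1 := lev_split univ w s
  have h2 := lev_split univ w' s
  have h3 := h.dist s
  have h4 := h.dist (s + 1)
  unfold lev at h1 h2
  omega

theorem lev_eq_ne {Γ : Finset (Equiv.Perm X)} {S : Set ℕ} {w w' : X → ℕ} (h : Same Γ S w w')
    (O : Finset X) (hO : ∀ γ ∈ Γ, ∀ x ∈ O, γ x ∈ O) (s j : ℕ) (hsS : s ∈ S) (hs : 2 ≤ s)
    (hj : j ≠ s) (h1 : 1 ≤ (univ.filter (fun z => w z = s)).card) : lev O w j = lev O w' j := by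
  have h2 := h.deck s hsS hs (fun c => lev O c j) (fun c γ hγ => lev_inv h.inv O hO c j hγ)
  rw [sum_congr rfl (fun z hz => lev_low_ne O w s j hj z (mem_filter.mp hz).2),
    sum_congr rfl (fun z hz => lev_low_ne O w' s j hj z (mem_filter.mp hz).2),
    sum_const, sum_const, ← num_eq h s, smul_eq_mul, smul_eq_mul] at h2
  exact Nat.eq_of_mul_eq_mul_left h1 h2

/-- the case of at least two points of value `s` -/
theorem lev_eq_two {Γ : Finset (Equiv.Perm X)} {S : Set ℕ} {w w' : X → ℕ} (h : Same Γ S w w')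
    (O : Finset X) (hO : ∀ γ ∈ Γ, ∀ x ∈ O, γ x ∈ O) (s : ℕ) (hsS : s ∈ S) (hs : 2 ≤ s)
    (h5 : 2 ≤ (univ.filter (fun z => w z = s)).card) (j : ℕ) : lev O w j = lev O w' j := by
  by_cases hj : j = s
  swap
  · exact lev_eq_ne h O hO s j hsS hs hj (by omega)
  subst hj
  have h2 := h.deck j hsS hs (fun c => lev O c j) (fun c γ hγ => lev_inv h.inv O hO c j hγ)
  have key : ∀ c : X → ℕ,
      (∑ z ∈ univ.filter (fun z => c z = j), lev O (low c z) j) + lev O c j =
        (univ.filter (fun z => c z = j)).card * lev O c j + lev O c (j + 1) := by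
    intro c
    have h3 : ∑ z ∈ univ.filter (fun z => c z = j), (lev O (low c z) j + (if z ∈ O then 1 else 0)) =
        (univ.filter (fun z => c z = j)).card * lev O c j := by
      rw [sum_congr rfl (fun z hz => lev_low_eq O c j (by omega) z (mem_filter.mp hz).2),
        sum_const, smul_eq_mul]
    rw [sum_add_distrib] at h3
    have h4 := lev_split O c j
    have h6 : ∑ z ∈ univ.filter (fun z => c z = j), (if z ∈ O then 1 else 0) =
        (O.filter (fun x => c x = j)).card := by
      rw [← card_filter]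
      congr 1
      ext x
      rw [mem_filter, mem_filter, mem_filter]
      exact ⟨fun h => ⟨h.2, h.1.2⟩, fun h => ⟨⟨mem_univ _, h.2⟩, h.1⟩⟩
    rw [h6] at h3
    omega
  have h3 := key w
  have h4 := key w'
  have h6 := lev_eq_ne h O hO j (j + 1) hsS hs (by omega) (by omega)
  rw [h2] at h3
  rw [← num_eq h j] at h4
  obtain ⟨m, hm⟩ := Nat.exists_eq_add_of_le h5
  rw [hm] at h3 h4
  have h8 : (m + 1) * lev O w j = (m + 1) * lev O w' j := by
    have e1 : (2 + m) * lev O w j = (m + 1) * lev O w j + lev O w j := by ring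
    have e2 : (2 + m) * lev O w' j = (m + 1) * lev O w' j + lev O w' j := by ring
    omega
  exact Nat.eq_of_mul_eq_mul_left (Nat.succ_pos m) h8

theorem lev_eq {Γ : Finset (Equiv.Perm X)} {w w' : X → ℕ} (h : Same Γ Set.univ w w')
    (O : Finset X) (hO : ∀ γ ∈ Γ, ∀ x ∈ O, γ x ∈ O) (j : ℕ) : lev O w j = lev O w' j := by
  -- the deck at level `s`
  have hdne : ∀ s j, 2 ≤ s → j ≠ s → 1 ≤ (univ.filter (fun z => w z = s)).card →
      lev O w j = lev O w' j := fun s j hs hj h1 => lev_eq_ne h O hO s j (Set.mem_univ _) hs hj h1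
  by_cases hex : ∃ s, 2 ≤ s ∧ j ≠ s ∧ 1 ≤ (univ.filter (fun z => w z = s)).card
  · obtain ⟨s, hs, hj, h1⟩ := hex
    exact hdne s j hs hj h1
  -- all nontrivial values are `j`
  have hall : ∀ z, w z = 1 ∨ w z = j := by
    intro z
    by_contra hcon
    push Not at hcon
    apply hex
    refine ⟨w z, ?_, fun e => hcon.2 e.symm, ?_⟩
    · have := h.pos z
      omega
    · exact card_pos.mpr ⟨z, mem_filter.mpr ⟨mem_univ _, rfl⟩⟩
  have hall' : ∀ z, w' z = 1 ∨ w' z = j := by
    intro z
    by_contra hcon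
    push Not at hcon
    have h1 : 1 ≤ (univ.filter (fun x => w' x = w' z)).card :=
      card_pos.mpr ⟨z, mem_filter.mpr ⟨mem_univ _, rfl⟩⟩
    rw [← num_eq h] at h1
    obtain ⟨x, hx⟩ := card_pos.mp h1
    rw [mem_filter] at hx
    rcases hall x with h3 | h3 <;> omega
  have hA : ∃ z, 2 ≤ w z := by
    by_contra hcon
    push Not at hcon
    have h3 : ∑ x, w x ≤ ∑ _x : X, 1 := sum_le_sum (fun x _ => by
      have := hcon x
      omega)
    rw [sum_const, smul_eq_mul, mul_one, card_univ] at h3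
    have := h.big
    omega
  obtain ⟨z₀, hz₀⟩ := hA
  have hz₀j : w z₀ = j := by
    rcases hall z₀ with h3 | h3 <;> omega
  have hj2 : 2 ≤ j := by omega
  have hnj : 1 ≤ (univ.filter (fun z => w z = j)).card :=
    card_pos.mpr ⟨z₀, mem_filter.mpr ⟨mem_univ _, hz₀j⟩⟩
  rcases Nat.lt_or_ge 2 j with hj3 | hj3
  · -- `j` at least three
    have h1 : ∀ c : X → ℕ, (∀ z, c z = 1 ∨ c z = j) → lev O c j = lev O c 2 := by
      intro c hc
      unfold lev
      congr 1
      apply filter_congr
      intro x _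
      rcases hc x with h3 | h3 <;> omega
    rw [h1 w hall, h1 w' hall']
    exact hdne j 2 hj2 (by omega) hnj
  · have hj : j = 2 := by omega
    subst hj
    refine lev_eq_two h O hO 2 (Set.mem_univ _) le_rfl ?_ 2
    have h6 : ∑ x, w x = ∑ x, (1 + if w x = 2 then 1 else 0) := by
      apply sum_congr rfl
      intro x _
      rcases hall x with h7 | h7 <;> simp [h7]
    rw [sum_add_distrib, sum_const, smul_eq_mul, mul_one, card_univ, ← card_filter] at h6
    have := h.big
    omega

/-- **Lovasz type bound**, for every invariant set. -/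
theorem level_le {Γ : Finset (Equiv.Perm X)} {S : Set ℕ} {w w' : X → ℕ} (h : Same Γ S w w')
    (O : Finset X) (hO : ∀ γ ∈ Γ, ∀ x ∈ O, γ x ∈ O) (s : ℕ) (hsS : s ∈ S) (hs : 2 ≤ s)
    (hlevO : ∀ j, lev O w j = lev O w' j) :
    (O.filter (fun x => w x = s)).card ≤ (O.filter (fun x => w x = s - 1)).card := by
  have hlev : (O.filter (fun x => w' x = s - 1)).card =
      (O.filter (fun x => w x = s - 1)).card := by
    have h1 := hlevO (s - 1)
    have h2 := hlevO (s - 1 + 1)
    have h3 := lev_split O w (s - 1)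
    have h4 := lev_split O w' (s - 1)
    omega
  have h1 := ex_pos h (O.filter (fun x => w x = s))
    (fun y hy => by rw [(mem_filter.mp hy).2]; exact hsS)
    (fun y hy => by
      have := (mem_filter.mp hy).2
      omega)
  have h2 : ∀ c : X → ℕ, 0 < (ex Γ w c (O.filter (fun x => w x = s))).card →
      (O.filter (fun x => w x = s)).card ≤ (O.filter (fun x => c x = s - 1)).card := by
    intro c hc
    obtain ⟨γ, hγ⟩ := card_pos.mp hc
    unfold ex at hγ
    rw [mem_filter] at hγ
    apply Finset.card_le_card_of_injOn γ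
    · intro y hy
      have h3 := hγ.2.1 y hy
      rw [mem_coe, mem_filter] at hy
      rw [mem_coe, mem_filter]
      exact ⟨hO γ hγ.1 y hy.1, by omega⟩
    · exact γ.injective.injOn
  rcases Nat.eq_zero_or_pos (ex Γ w w (O.filter (fun x => w x = s))).card with h3 | h3
  · have h4 : 0 < (ex Γ w w' (O.filter (fun x => w x = s))).card := by omega
    exact (h2 w' h4).trans hlev.le
  · exact h2 w h3

end Run7.h357.TW
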