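import Pool.Agent.Run7.h357.TW.Core

set_option autoImplicit false
set_option linter.unusedSectionVars false

/-!
The group which preserves all values except `s - 1` and `s`.
-/

namespace Run7.h357.TW

open Finset Classical

variable {X : Type} [Fintype X]

/-- one vertex moved: `w'` is equivalent to `w` with the values of two points exchanged -/
theorem basic0 {Γ : Finset (Equiv.Perm X)} {w w' : X → ℕ} (h : Same Γ Set.univ w w') (u : X)
    (hu : 2 ≤ w u) : ∃ y, w y + 1 = w u ∧ ∃ δ ∈ Γ, ∀ x, w' (δ x) = w (Equiv.swap y u x) := by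
  set s := w u with hs
  let Ψ : (X → ℕ) → ℕ := fun c => (Γ.filter (fun γ => ∀ x, c (γ x) = low w u x)).card
  have hΨ : ∀ c : X → ℕ, ∀ γ ∈ Γ, Ψ (fun x => c (γ x)) = Ψ c := by
    intro c δ hδ
    refine Finset.card_nbij' (fun γ => δ * γ) (fun γ => δ⁻¹ * γ) ?_ ?_ ?_ ?_
    · intro γ hγ
      rw [mem_coe, mem_filter] at hγ ⊢
      exact ⟨h.mul _ hδ _ hγ.1, fun y => hγ.2 y⟩
    · intro γ hγ
      rw [mem_coe, mem_filter] at hγ ⊢
      refine ⟨h.mul _ (h.inv _ hδ) _ hγ.1, fun y => ?_⟩
      have h3 : δ ((δ⁻¹ * γ) y) = γ y := by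
        rw [← Equiv.Perm.mul_apply, mul_inv_cancel_left]
      show c (δ ((δ⁻¹ * γ) y)) = _
      rw [h3]
      exact hγ.2 y
    · intro γ _
      exact inv_mul_cancel_left δ γ
    · intro γ _
      exact mul_inv_cancel_left δ γ
  have h1 := h.deck s (Set.mem_univ _) hu Ψ hΨ
  have h2 : 0 < Ψ (low w u) := card_pos.mpr ⟨1, mem_filter.mpr ⟨h.one, fun x => rfl⟩⟩
  have h2' : 0 < ∑ z ∈ univ.filter (fun z => w z = s), Ψ (low w z) :=
    lt_of_lt_of_le h2 (Finset.single_le_sum (f := fun z => Ψ (low w z)) (fun _ _ => Nat.zero_le _)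
      (mem_filter.mpr ⟨mem_univ u, rfl⟩))
  rw [h1] at h2'
  obtain ⟨z', hz', h3⟩ := Finset.exists_ne_zero_of_sum_ne_zero h2'.ne'
  obtain ⟨γ, hγ⟩ := card_pos.mp (Nat.pos_of_ne_zero h3)
  rw [mem_filter] at hγ hz'
  obtain ⟨hγΓ, hγ⟩ := hγ
  have hz's := hz'.2
  set v := γ.symm z' with hv
  have hγv : γ v = z' := γ.apply_symm_apply z'
  by_cases hvu : v = u
  · exfalso
    obtain ⟨x, hx⟩ := h.ne γ hγΓ
    apply hx
    have h4 := hγ x
    unfold low at h4
    by_cases hxu : x = u
    · rw [hxu, ← hs, ← hvu, hγv, hz's]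
    · rw [if_neg hxu, if_neg] at h4
      · exact h4.symm
      · intro e
        apply hxu
        rw [← hvu]
        apply γ.injective
        rw [e, hγv]
  · have h4 := hγ v
    rw [hγv] at h4
    unfold low at h4
    rw [if_pos rfl, if_neg hvu, hz's] at h4
    have hvy : w v + 1 = s := by omega
    refine ⟨v, hvy, γ, hγΓ, ?_⟩
    intro x
    by_cases hxy : x = v
    · rw [hxy, Equiv.swap_apply_left, ← hs, hγv, hz's]
    · by_cases hxu : x = u
      · rw [hxu, Equiv.swap_apply_right]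
        have h5 := hγ u
        unfold low at h5
        rw [if_pos rfl, if_neg, ← hs] at h5
        · omega
        · intro e
          apply hvu
          apply γ.injective
          rw [hγv, e]
      · rw [Equiv.swap_apply_of_ne_of_ne hxy hxu]
        have h5 := hγ x
        unfold low at h5
        rw [if_neg hxu, if_neg] at h5
        · exact h5
        · intro e
          apply hxy
          apply γ.injective
          rw [hγv, e]

/-- identify the values `s - 1` and `s` -/
def col (s j : ℕ) : ℕ := if j = s then s - 1 else j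

/-- the members of `Γ` which preserve all values except `s - 1` and `s` -/
noncomputable def Gs (Γ : Finset (Equiv.Perm X)) (w : X → ℕ) (s : ℕ) : Finset (Equiv.Perm X) :=
  Γ.filter (fun γ => ∀ x, col s (w (γ x)) = col s (w x))

theorem mem_Gs (Γ : Finset (Equiv.Perm X)) (w : X → ℕ) (s : ℕ) (γ : Equiv.Perm X) :
    γ ∈ Gs Γ w s ↔ γ ∈ Γ ∧ ∀ x, col s (w (γ x)) = col s (w x) := by
  unfold Gs; rw [mem_filter]

theorem col_low (c : X → ℕ) (s : ℕ) (hs : 2 ≤ s) (z : X) (hz : c z = s) (x : X) :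
    col s (low c z x) = col s (c x) := by
  unfold low
  by_cases hx : x = z
  · rw [if_pos hx, hx, hz]
    unfold col
    rw [if_pos rfl, if_neg (by omega)]
  · rw [if_neg hx]

theorem same_local {Γ : Finset (Equiv.Perm X)} {w w' : X → ℕ} (h : Same Γ Set.univ w w')
    (u : X) (hu : 2 ≤ w u) : ∃ w'' : X → ℕ, Same (Gs Γ w (w u)) {w u} w w'' := by
  obtain ⟨y, hy, δ, hδ, hw'⟩ := basic0 h u hu
  set s := w u with hs
  set w'' : X → ℕ := fun x => w (Equiv.swap y u x) with hw''
  have hyu : y ≠ u := by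
    intro e
    rw [e] at hy
    omega
  have hcol : ∀ x, col s (w'' x) = col s (w x) := by
    intro x
    show col s (w (Equiv.swap y u x)) = _
    by_cases hxy : x = y
    · rw [hxy, Equiv.swap_apply_left]
      unfold col
      rw [if_pos rfl, if_neg (by omega)]
      omega
    · by_cases hxu : x = u
      · rw [hxu, Equiv.swap_apply_right]
        unfold col
        rw [if_pos rfl, if_neg (by omega)]
        omega
      · rw [Equiv.swap_apply_of_ne_of_ne hxy hxu]
  have hGsone : (1 : Equiv.Perm X) ∈ Gs Γ w s := (mem_Gs _ _ _ _).mpr ⟨h.one, fun x => rfl⟩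
  have hGsmul : ∀ γ ∈ Gs Γ w s, ∀ ε ∈ Gs Γ w s, γ * ε ∈ Gs Γ w s := by
    intro γ hγ ε hε
    rw [mem_Gs] at hγ hε ⊢
    refine ⟨h.mul _ hγ.1 _ hε.1, fun x => ?_⟩
    rw [Equiv.Perm.mul_apply, hγ.2, hε.2]
  have hGsinv : ∀ γ ∈ Gs Γ w s, γ⁻¹ ∈ Gs Γ w s := by
    intro γ hγ
    rw [mem_Gs] at hγ ⊢
    refine ⟨h.inv _ hγ.1, fun x => ?_⟩
    have h1 : γ (γ⁻¹ x) = x := by
      rw [← Equiv.Perm.mul_apply, mul_inv_cancel]; rfl
    rw [← hγ.2 (γ⁻¹ x), h1]
  refine ⟨w'', hGsone, hGsmul, hGsinv, ?_, ?_, ?_, ?_, h.pos, h.big⟩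
  · -- the deck
    intro s' hs' hs2 Ψ hΨ
    have hss : s' = s := hs'
    subst hss
    let T : (X → ℕ) → Finset (Equiv.Perm X) := fun c =>
      Γ.filter (fun γ => ∀ x, col s (c (γ x)) = col s (w x))
    let Φ : (X → ℕ) → ℕ := fun c => ∑ γ ∈ T c, Ψ (fun x => c (γ x))
    have hΦ : ∀ c : X → ℕ, ∀ γ ∈ Γ, Φ (fun x => c (γ x)) = Φ c := by
      intro c ε hε
      refine Finset.sum_nbij' (fun γ => ε * γ) (fun γ => ε⁻¹ * γ) ?_ ?_ ?_ ?_ ?_
      · intro γ hγ
        rw [mem_filter] at hγ ⊢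
        exact ⟨h.mul _ hε _ hγ.1, fun y => hγ.2 y⟩
      · intro γ hγ
        rw [mem_filter] at hγ ⊢
        refine ⟨h.mul _ (h.inv _ hε) _ hγ.1, fun y => ?_⟩
        have h3 : ε ((ε⁻¹ * γ) y) = γ y := by
          rw [← Equiv.Perm.mul_apply, mul_inv_cancel_left]
        show col s (c (ε ((ε⁻¹ * γ) y))) = _
        rw [h3]
        exact hγ.2 y
      · intro γ _
        exact inv_mul_cancel_left ε γ
      · intro γ _
        exact mul_inv_cancel_left ε γ
      · intro γ _
        rfl
    have hval : ∀ c : X → ℕ, (∀ x, col s (c x) = col s (w x)) → Φ c = (Gs Γ w s).card * Ψ c := by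
      intro c hc
      have h1 : T c = Gs Γ w s := by
        ext γ
        rw [mem_Gs, mem_filter]
        constructor
        · rintro ⟨h1, h2⟩
          exact ⟨h1, fun x => by rw [← hc, h2]⟩
        · rintro ⟨h1, h2⟩
          exact ⟨h1, fun x => by rw [hc, h2]⟩
      show ∑ γ ∈ T c, Ψ (fun x => c (γ x)) = _
      rw [h1, sum_congr rfl (fun γ hγ => hΨ c γ hγ), sum_const, smul_eq_mul]
    have h1 := h.deck s (Set.mem_univ _) hs2 Φ hΦ
    have h2 : ∑ z ∈ univ.filter (fun z => w z = s), Φ (low w z) =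
        (Gs Γ w s).card * ∑ z ∈ univ.filter (fun z => w z = s), Ψ (low w z) := by
      rw [mul_sum]
      apply sum_congr rfl
      intro z hz
      exact hval _ (fun x => col_low w s hs2 z (mem_filter.mp hz).2 x)
    have h3 : ∑ z ∈ univ.filter (fun z => w' z = s), Φ (low w' z) =
        (Gs Γ w s).card * ∑ z ∈ univ.filter (fun z => w'' z = s), Ψ (low w'' z) := by
      rw [mul_sum]
      symm
      refine Finset.sum_bij' (fun z _ => δ z) (fun z _ => δ.symm z) ?_ ?_ ?_ ?_ ?_
      · intro z hz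
        rw [mem_filter] at hz ⊢
        exact ⟨mem_univ _, by rw [hw']; exact hz.2⟩
      · intro z hz
        rw [mem_filter] at hz ⊢
        refine ⟨mem_univ _, ?_⟩
        show w (Equiv.swap y u (δ.symm z)) = s
        rw [← hw', δ.apply_symm_apply, hz.2]
      · intro z _
        exact δ.symm_apply_apply z
      · intro z _
        exact δ.apply_symm_apply z
      · intro z hz
        rw [mem_filter] at hz
        have h4 : (fun x => low w' (δ z) (δ x)) = low w'' z := by
          funext x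
          unfold low
          by_cases hx : x = z
          · rw [if_pos hx, if_pos (by rw [hx]), hw']
          · rw [if_neg hx, if_neg (fun e => hx (δ.injective e)), hw']
        rw [← hΦ (low w' (δ z)) δ hδ, h4]
        symm
        apply hval
        intro x
        rw [col_low w'' s hs2 z hz.2 x, hcol]
    have hpos : 0 < (Gs Γ w s).card := card_pos.mpr ⟨1, hGsone⟩
    apply Nat.eq_of_mul_eq_mul_left hpos
    rw [← h2, ← h3, h1]
  · intro j
    refine Finset.card_bij (fun x _ => Equiv.swap y u x) ?_ ?_ ?_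
    · intro x hx
      rw [mem_filter] at hx ⊢
      exact ⟨mem_univ _, hx.2⟩
    · intro x _ x' _ e
      exact (Equiv.swap y u).injective e
    · intro x hx
      rw [mem_filter] at hx
      refine ⟨Equiv.swap y u x, ?_, Equiv.swap_apply_self _ _ _⟩
      rw [mem_filter]
      refine ⟨mem_univ _, ?_⟩
      show j ≤ w (Equiv.swap y u (Equiv.swap y u x))
      rw [Equiv.swap_apply_self]
      exact hx.2
  · exact Equiv.sum_comp (Equiv.swap y u) w
  · intro γ hγ
    rw [mem_Gs] at hγ
    obtain ⟨x, hx⟩ := h.ne _ (h.mul _ hδ _ hγ.1)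
    refine ⟨x, ?_⟩
    rw [Equiv.Perm.mul_apply, hw'] at hx
    exact hx

/-- **Lovasz type bound** for the group preserving the values other than `s - 1`, `s`. -/
theorem local_le {Γ : Finset (Equiv.Perm X)} {w w' : X → ℕ} (h : Same Γ Set.univ w w')
    (s : ℕ) (hs : 2 ≤ s) (hn : 2 ≤ (univ.filter (fun x => w x = s)).card) (O : Finset X)
    (hO : ∀ γ ∈ Γ, (∀ x, col s (w (γ x)) = col s (w x)) → ∀ x ∈ O, γ x ∈ O) :
    (O.filter (fun x => w x = s)).card ≤ (O.filter (fun x => w x = s - 1)).card := by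
  obtain ⟨u, hu⟩ := card_pos.mp (show 0 < (univ.filter (fun x => w x = s)).card by omega)
  rw [mem_filter] at hu
  obtain ⟨w'', h''⟩ := same_local h u (by omega)
  rw [hu.2] at h''
  have hO' : ∀ γ ∈ Gs Γ w s, ∀ x ∈ O, γ x ∈ O := by
    intro γ hγ
    rw [mem_Gs] at hγ
    exact hO γ hγ.1 hγ.2
  exact level_le h'' O hO' s rfl hs (lev_eq_two h'' O hO' s rfl hs hn)

end Run7.h357.TW
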