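import Pool.Agent.Run7.h357.TW.Quo
import Pool.Agent.Run7.h357.TW.Loc

set_option autoImplicit false
set_option linter.unusedSectionVars false
set_option linter.unusedVariables false

/-!
Consecutive sizes which are taken by exactly one class each.
-/

namespace Run7.h357.TW

open Finset Classical

variable {X : Type} [Fintype X]

/-- the data: `z 0, ..., z (p - 1)` are the only points of the values `a + 1, ..., a + p` -/
structure Cons (w : X → ℕ) (a p : ℕ) (z : ℕ → X) : Prop where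
  val : ∀ i, i < p → w (z i) = a + 1 + i
  uniq : ∀ i, i < p → ∀ x, w x = a + 1 + i → x = z i

/-- the permutations `τ (k-1) ... τ 1 τ 0`, where `τ i` exchanges `z i` and `z (i + 1)` -/
noncomputable def cyc (z : ℕ → X) : ℕ → Equiv.Perm X
  | 0 => 1
  | k + 1 => Equiv.swap (z k) (z (k + 1)) * cyc z k

theorem Cons.inj {w : X → ℕ} {a p : ℕ} {z : ℕ → X} (hz : Cons w a p z) {i j : ℕ} (hi : i < p)
    (hj : j < p) (h : z i = z j) : i = j := by
  have h1 := hz.val i hi
  have h2 := hz.val j hj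
  rw [h] at h1
  omega

theorem cyc_zero {w : X → ℕ} {a p : ℕ} {z : ℕ → X} (hz : Cons w a p z) (k : ℕ) (hk : k < p) :
    cyc z k (z 0) = z k := by
  induction k with
  | zero => rfl
  | succ k ih =>
    show Equiv.swap (z k) (z (k + 1)) (cyc z k (z 0)) = _
    rw [ih (by omega), Equiv.swap_apply_left]

theorem cyc_far {w : X → ℕ} {a p : ℕ} {z : ℕ → X} (hz : Cons w a p z) (k : ℕ) (hk : k < p)
    (x : X) (hx : ∀ i, i ≤ k → x ≠ z i) : cyc z k x = x := by
  induction k with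
  | zero => rfl
  | succ k ih =>
    show Equiv.swap (z k) (z (k + 1)) (cyc z k x) = _
    rw [ih (by omega) (fun i hi => hx i (by omega)),
      Equiv.swap_apply_of_ne_of_ne (hx k (by omega)) (hx (k + 1) le_rfl)]

theorem cyc_succ {w : X → ℕ} {a p : ℕ} {z : ℕ → X} (hz : Cons w a p z) (k : ℕ) (hk : k < p)
    (j : ℕ) (hj : j < k) : cyc z k (z (j + 1)) = z j := by
  induction k with
  | zero => omega
  | succ k ih =>
    show Equiv.swap (z k) (z (k + 1)) (cyc z k (z (j + 1))) = _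
    rcases Nat.lt_or_ge j k with h1 | h1
    · rw [ih (by omega) h1, Equiv.swap_apply_of_ne_of_ne]
      · intro e
        have := hz.inj (by omega) (by omega) e
        omega
      · intro e
        have := hz.inj (by omega) (by omega) e
        omega
    · have hjk : j = k := by omega
      subst hjk
      rw [cyc_far hz j (by omega) _ (fun i hi e => by
        have := hz.inj (by omega) (by omega) e
        omega), Equiv.swap_apply_right]

/-- the permutation moves only the points `z i` -/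
def Supp (p : ℕ) (z : ℕ → X) (c : Equiv.Perm X) : Prop := ∀ x, (∀ i, i < p → x ≠ z i) → c x = x

theorem supp_cyc {w : X → ℕ} {a p : ℕ} {z : ℕ → X} (hz : Cons w a p z) (k : ℕ) (hk : k < p) :
    Supp p z (cyc z k) := fun x hx => cyc_far hz k hk x (fun i hi => hx i (by omega))

theorem supp_swap {p : ℕ} {z : ℕ → X} (k : ℕ) (hk : k + 1 < p) :
    Supp p z (Equiv.swap (z k) (z (k + 1))) := fun x hx =>
  Equiv.swap_apply_of_ne_of_ne (hx k (by omega)) (hx (k + 1) hk)

theorem Supp.mem {p : ℕ} {z : ℕ → X} {c : Equiv.Perm X} (hc : Supp p z c) (x : X)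
    (hx : ∃ i, i < p ∧ x = z i) : ∃ i, i < p ∧ c x = z i := by
  by_contra hcon
  push Not at hcon
  have h1 := hc (c x) hcon
  have h2 : c x = x := c.injective h1
  obtain ⟨i, hi, hxi⟩ := hx
  exact hcon i hi (by rw [h2, hxi])

/-- values determine the points `z i` -/
theorem Cons.eq_of {w : X → ℕ} {a p : ℕ} {z : ℕ → X} (hz : Cons w a p z) (x y : X)
    (hy : ∃ i, i < p ∧ y = z i) (h : w x = w y) : x = y := by
  obtain ⟨i, hi, rfl⟩ := hy
  exact hz.uniq i hi x (by rw [h, hz.val i hi])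

theorem Cons.not_mem {w : X → ℕ} {a p : ℕ} {z : ℕ → X} (hz : Cons w a p z) (x y : X)
    (hy : ∀ i, i < p → y ≠ z i) (h : w x = w y) : ∀ i, i < p → x ≠ z i := by
  intro i hi e
  apply hy i hi
  apply hz.uniq i hi
  rw [← h, e, hz.val i hi]

/-- an element `g` with `w ∘ g = w ∘ c` agrees with `c` on the points `z i` and preserves the
values elsewhere -/
theorem agree {w : X → ℕ} {a p : ℕ} {z : ℕ → X} (hz : Cons w a p z) {c g : Equiv.Perm X}
    (hc : Supp p z c) (hg : ∀ x, w (g x) = w (c x)) :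
    (∀ i, i < p → g (z i) = c (z i)) ∧ ∀ x, (∀ i, i < p → x ≠ z i) → w (g x) = w x := by
  constructor
  · intro i hi
    exact hz.eq_of _ _ (hc.mem _ ⟨i, hi, rfl⟩) (hg _)
  · intro x hx
    rw [hg, hc x hx]

/-- multiplication of an element of the second kind by one of the first kind -/
theorem kind_mul {w w' : X → ℕ} {a p : ℕ} {z : ℕ → X} (hz : Cons w a p z)
    {c d g δ : Equiv.Perm X} (hc : Supp p z c) (hd : Supp p z d) (hg : ∀ x, w (g x) = w (c x))
    (hδ : ∀ x, w' (δ x) = w (d x)) : ∀ x, w' ((δ * g) x) = w ((d * c) x) := by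
  intro x
  rw [Equiv.Perm.mul_apply, Equiv.Perm.mul_apply, hδ]
  obtain ⟨h1, h2⟩ := agree hz hc hg
  by_cases hx : ∃ i, i < p ∧ x = z i
  · obtain ⟨i, hi, rfl⟩ := hx
    rw [h1 i hi]
  · push Not at hx
    have h3 := hz.not_mem (g x) x hx (h2 x hx)
    rw [hd (g x) h3, h2 x hx, hc x hx, hd x hx]

/-- the quotient of two elements of the second kind -/
theorem kind_div {w w' : X → ℕ} {a p : ℕ} {z : ℕ → X} (hz : Cons w a p z)
    {c d δ ε : Equiv.Perm X} (hc : Supp p z c) (hd : Supp p z d) (hδ : ∀ x, w' (δ x) = w (c x))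
    (hε : ∀ x, w' (ε x) = w (d x)) : ∀ x, w ((ε⁻¹ * δ) x) = w ((d⁻¹ * c) x) := by
  have hinv : ∀ (f : Equiv.Perm X) (y : X), f (f⁻¹ y) = y := by
    intro f y
    rw [← Equiv.Perm.mul_apply, mul_inv_cancel]; rfl
  have h0 : ∀ x, w (d ((ε⁻¹ * δ) x)) = w (c x) := by
    intro x
    rw [← hε, ← hδ, Equiv.Perm.mul_apply, hinv]
  have hd' : ∀ y, (∀ i, i < p → y ≠ z i) → d⁻¹ y = y := by
    intro y hy
    apply d.injective
    rw [hinv, hd y hy]
  intro x
  by_cases hx : ∃ i, i < p ∧ x = z i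
  · have h1 : d ((ε⁻¹ * δ) x) = c x := hz.eq_of _ _ (hc.mem _ hx) (h0 x)
    congr 1
    apply d.injective
    rw [h1, Equiv.Perm.mul_apply, hinv]
  · push Not at hx
    have h1 : w (d ((ε⁻¹ * δ) x)) = w x := by rw [h0, hc x hx]
    have h2 := hz.not_mem _ x hx h1
    have h3 : d ((ε⁻¹ * δ) x) = (ε⁻¹ * δ) x := by
      by_contra hne
      by_cases h4 : ∃ i, i < p ∧ (ε⁻¹ * δ) x = z i
      · obtain ⟨i, hi, h5⟩ := hd.mem _ h4
        exact h2 i hi h5
      · push Not at h4
        exact hne (hd _ h4)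
    rw [← h3, h1, Equiv.Perm.mul_apply, hc x hx, hd' x hx]

/-- the basic elements of the second kind -/
theorem basic {Γ : Finset (Equiv.Perm X)} {w w' : X → ℕ} (h : Same Γ Set.univ w w') {a p : ℕ}
    {z : ℕ → X} (hz : Cons w a p z) (i : ℕ) (hi : i + 1 < p) :
    ∃ δ ∈ Γ, ∀ x, w' (δ x) = w (Equiv.swap (z i) (z (i + 1)) x) := by
  have h1 := hz.val (i + 1) hi
  obtain ⟨y, hy, δ, hδ, h2⟩ := basic0 h (z (i + 1)) (by omega)
  have h3 : y = z i := hz.uniq i (by omega) y (by omega)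
  rw [h3] at h2
  exact ⟨δ, hδ, h2⟩

/-- all partial cycles are of the first or the second kind -/
theorem kinds {Γ : Finset (Equiv.Perm X)} {w w' : X → ℕ} (h : Same Γ Set.univ w w') {a p : ℕ} {z : ℕ → X}
    (hz : Cons w a p z) (k : ℕ) : (2 * k < p → ∃ g ∈ Γ, ∀ x, w (g x) = w (cyc z (2 * k) x)) ∧
      (2 * k + 1 < p → ∃ δ ∈ Γ, ∀ x, w' (δ x) = w (cyc z (2 * k + 1) x)) := by
  have step : ∀ k, (∃ g ∈ Γ, ∀ x, w (g x) = w (cyc z (2 * k) x)) →
      (2 * k + 1 < p → ∃ δ ∈ Γ, ∀ x, w' (δ x) = w (cyc z (2 * k + 1) x)) := by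
    rintro k ⟨g, hg1, hg2⟩ hk
    obtain ⟨δ, hδ1, hδ2⟩ := basic h hz (2 * k) hk
    refine ⟨δ * g, h.mul _ hδ1 _ hg1, ?_⟩
    exact kind_mul hz (supp_cyc hz _ (by omega)) (supp_swap _ hk) hg2 hδ2
  induction k with
  | zero =>
    refine ⟨fun _ => ⟨1, h.one, fun x => rfl⟩, step 0 ⟨1, h.one, fun x => rfl⟩⟩
  | succ k ih =>
    have h1 : 2 * (k + 1) < p → ∃ g ∈ Γ, ∀ x, w (g x) = w (cyc z (2 * (k + 1)) x) := by
      intro hk
      obtain ⟨δ, hδ1, hδ2⟩ := ih.2 (by omega)
      obtain ⟨ε, hε1, hε2⟩ := basic h hz (2 * k + 1) (by omega)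
      refine ⟨ε⁻¹ * δ, h.mul _ (h.inv _ hε1) _ hδ1, ?_⟩
      have h2 := kind_div hz (supp_cyc hz (2 * k + 1) (by omega))
        (supp_swap (2 * k + 1) (by omega)) hδ2 hε2
      intro x
      rw [h2 x, Equiv.swap_inv]
      rfl
    refine ⟨h1, fun hk => step (k + 1) (h1 (by omega)) hk⟩

theorem pow_mem {Γ : Finset (Equiv.Perm X)} (hone : (1 : Equiv.Perm X) ∈ Γ)
    (hmul : ∀ γ ∈ Γ, ∀ δ ∈ Γ, γ * δ ∈ Γ) {g : Equiv.Perm X} (hg : g ∈ Γ) (n : ℕ) : g ^ n ∈ Γ := by
  induction n with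
  | zero => rw [pow_zero]; exact hone
  | succ n ih => rw [pow_succ]; exact hmul _ ih _ hg

theorem pow_fix (g : Equiv.Perm X) (x : X) (d : ℕ) (h : (g ^ d) x = x) (m : ℕ) :
    (g ^ (d * m)) x = x := by
  induction m with
  | zero => rw [mul_zero, pow_zero]; rfl
  | succ m ih => rw [mul_add, mul_one, pow_add, Equiv.Perm.mul_apply, h, ih]

theorem cyc_down {w : X → ℕ} {a p : ℕ} {z : ℕ → X} (hz : Cons w a p z) (k : ℕ) (hk : k + 1 = p)
    (i : ℕ) (hi : i < p) (j : ℕ) (hj : j ≤ i) : ((cyc z k) ^ j) (z i) = z (i - j) := by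
  induction j with
  | zero => rfl
  | succ j ih =>
    rw [pow_succ', Equiv.Perm.mul_apply, ih (by omega)]
    have h1 : i - j = (i - (j + 1)) + 1 := by omega
    rw [h1, cyc_succ hz k (by omega) _ (by omega)]

theorem cyc_pow {w : X → ℕ} {a p : ℕ} {z : ℕ → X} (hz : Cons w a p z) (k : ℕ) (hk : k + 1 = p)
    (i : ℕ) (hi : i < p) : ((cyc z k) ^ p) (z i) = z i := by
  have h1 : p = (k - i) + (1 + i) := by omega
  have h2 : ((cyc z k) ^ (1 + i)) (z i) = z k := by
    rw [pow_add, Equiv.Perm.mul_apply, cyc_down hz k hk i hi i le_rfl, pow_one, Nat.sub_self,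
      cyc_zero hz k (by omega)]
  rw [h1, pow_add, Equiv.Perm.mul_apply, h2, cyc_down hz k hk k (by omega) (k - i) (by omega)]
  congr 1
  omega

/-- **Consecutive sizes.** -/
theorem cyc_main {Q : SimpleGraph X} {w w' : X → ℕ} (h : Same (AutQ Q) Set.univ w w') {a p : ℕ} {z : ℕ → X}
    (hz : Cons w a p z) (hp : p.Prime) (hp3 : 3 ≤ p)
    (hlt : ∀ s, (univ.filter (fun x => w x = s)).card < p) : False := by
  have hodd : p % 2 = 1 := hp.eq_two_or_odd.resolve_left (by omega)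
  obtain ⟨k, hk⟩ : ∃ k, 2 * k + 1 = p := ⟨p / 2, by omega⟩
  obtain ⟨g, hgΓ, hg⟩ := (kinds h hz k).1 (by omega)
  obtain ⟨hg1, hg2⟩ := agree hz (supp_cyc hz (2 * k) (by omega)) hg
  -- powers of `g`
  have hoff : ∀ n x, (∀ i, i < p → x ≠ z i) →
      (∀ i, i < p → (g ^ n) x ≠ z i) ∧ w ((g ^ n) x) = w x := by
    intro n x hx
    induction n with
    | zero => exact ⟨hx, rfl⟩
    | succ n ih =>
      rw [pow_succ', Equiv.Perm.mul_apply]
      have h1 := hg2 _ ih.1
      refine ⟨hz.not_mem _ _ ih.1 h1, h1.trans ih.2⟩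
  have hfixN : ∀ x, (∀ i, i < p → x ≠ z i) → (g ^ ((p - 1).factorial)) x = x := by
    intro x hx
    have h1 : (univ.filter (fun y => w y = w x)).card < (range p).card := by
      rw [card_range]; exact hlt _
    obtain ⟨i, hi, j, hj, hij, hij'⟩ := Finset.exists_ne_map_eq_of_card_lt_of_maps_to h1
      (f := fun n => (g ^ n) x) (fun n _ => by
        rw [mem_coe, mem_filter]
        exact ⟨mem_univ _, (hoff n x hx).2⟩)
    rw [mem_range] at hi hj
    have key : ∀ i j, i < j → j < p → (g ^ i) x = (g ^ j) x →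
        (g ^ ((p - 1).factorial)) x = x := by
      intro i j hij hj he
      have h2 : (g ^ (j - i)) x = x := by
        have h3 : j = i + (j - i) := by omega
        rw [h3, pow_add, Equiv.Perm.mul_apply] at he
        exact ((g ^ i).injective he).symm
      obtain ⟨m, hm⟩ := Nat.dvd_factorial (show 0 < j - i by omega) (show j - i ≤ p - 1 by omega)
      rw [hm]
      exact pow_fix g x _ h2 m
    rcases Nat.lt_or_gt_of_ne hij with h2 | h2
    · exact key i j h2 hj hij'
    · exact key j i h2 hi hij'.symm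
  have hco : Nat.Coprime ((p - 1).factorial) p := by
    rw [Nat.coprime_comm, Nat.Prime.coprime_iff_not_dvd hp, hp.dvd_factorial]
    omega
  obtain ⟨M, hM0, hM1⟩ := Nat.chineseRemainder hco 0 1
  obtain ⟨m, hm⟩ := (Nat.modEq_zero_iff_dvd.mp hM0)
  have hMp : M = 1 + p * (M / p) := by
    have h1 : M % p = 1 % p := hM1
    rw [Nat.mod_eq_of_lt (show 1 < p by omega)] at h1
    have := Nat.div_add_mod M p
    omega
  have hMoff : ∀ x, (∀ i, i < p → x ≠ z i) → (g ^ M) x = x := by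
    intro x hx
    rw [hm]
    exact pow_fix g x _ (hfixN x hx) m
  have hgc : ∀ n i, i < p → (g ^ n) (z i) = ((cyc z (2 * k)) ^ n) (z i) ∧
      ∃ j, j < p ∧ ((cyc z (2 * k)) ^ n) (z i) = z j := by
    intro n i hi
    induction n with
    | zero => exact ⟨rfl, i, hi, rfl⟩
    | succ n ih =>
      obtain ⟨h1, j, hj, h2⟩ := ih
      rw [pow_succ', Equiv.Perm.mul_apply, h1, pow_succ', Equiv.Perm.mul_apply, h2]
      exact ⟨hg1 j hj, (supp_cyc hz (2 * k) (by omega)).mem _ ⟨j, hj, rfl⟩⟩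
  have hM : ∀ i, i < p → (g ^ M) (z i) = cyc z (2 * k) (z i) := by
    intro i hi
    rw [(hgc M i hi).1, hMp, pow_add, Equiv.Perm.mul_apply,
      pow_fix _ _ p (cyc_pow hz (2 * k) hk i hi), pow_one]
  have hgM : g ^ M ∈ AutQ Q := pow_mem h.one h.mul hgΓ M
  have hoffadj : ∀ x, (∀ i, i < p → x ≠ z i) → (Q.Adj x (z 0) ↔ Q.Adj x (z 1)) := by
    intro x hx
    have h1 := (mem_AutQ Q _).mp hgM x (z 1)
    rw [hMoff x hx, hM 1 (by omega), cyc_succ hz (2 * k) (by omega) 0 (by omega)] at h1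
    exact h1
  -- the cycle of length three
  obtain ⟨g₂, hg₂Γ, hg₂⟩ := (kinds h hz 1).1 (by omega)
  obtain ⟨hg₃, _⟩ := agree hz (supp_cyc hz (2 * 1) (by omega)) hg₂
  have e0 : g₂ (z 0) = z 2 := by
    rw [hg₃ 0 (by omega)]; exact cyc_zero hz 2 (by omega)
  have e1 : g₂ (z 1) = z 0 := by
    rw [hg₃ 1 (by omega)]; exact cyc_succ hz 2 (by omega) 0 (by omega)
  have e2 : g₂ (z 2) = z 1 := by
    rw [hg₃ 2 (by omega)]; exact cyc_succ hz 2 (by omega) 1 (by omega)
  have hadj2 := (mem_AutQ Q _).mp hg₂Γ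
  have honadj : ∀ j, 2 ≤ j → j < p → (Q.Adj (z j) (z 0) ↔ Q.Adj (z j) (z 1)) := by
    intro j hj hjp
    rcases Nat.lt_or_ge 2 j with h1 | h1
    · have e3 : g₂ (z j) = z j := by
        rw [hg₃ j hjp]
        apply cyc_far hz 2 (by omega)
        intro i hi e
        have := hz.inj hjp (by omega) e
        omega
      have h2 := hadj2 (z j) (z 1)
      rw [e3, e1] at h2
      exact h2
    · have hj2 : j = 2 := by omega
      subst hj2
      have h2 := hadj2 (z 1) (z 0)
      have h3 := hadj2 (z 2) (z 1)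
      rw [e1, e0] at h2
      rw [e2, e1] at h3
      rw [Q.adj_comm (z 2) (z 0), h2, h3]
  have hswap : Equiv.swap (z 0) (z 1) ∈ AutQ Q := by
    rw [mem_AutQ]
    have hall : ∀ x, x ≠ z 0 → x ≠ z 1 → (Q.Adj x (z 0) ↔ Q.Adj x (z 1)) := by
      intro x h0 h1
      by_cases hx : ∃ i, i < p ∧ x = z i
      · obtain ⟨i, hi, rfl⟩ := hx
        apply honadj i _ hi
        by_contra hcon
        have : i = 0 ∨ i = 1 := by omega
        rcases this with rfl | rfl
        · exact h0 rfl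
        · exact h1 rfl
      · push Not at hx
        exact hoffadj x hx
    intro x y
    by_cases hx0 : x = z 0
    · by_cases hy0 : y = z 0
      · rw [hx0, hy0]
        exact ⟨fun e => absurd rfl e.ne, fun e => absurd rfl e.ne⟩
      · by_cases hy1 : y = z 1
        · rw [hx0, hy1, Equiv.swap_apply_left, Equiv.swap_apply_right, Q.adj_comm]
        · rw [hx0, Equiv.swap_apply_left, Equiv.swap_apply_of_ne_of_ne hy0 hy1, Q.adj_comm,
            Q.adj_comm (z 0), hall y hy0 hy1]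
    · by_cases hx1 : x = z 1
      · by_cases hy0 : y = z 0
        · rw [hx1, hy0, Equiv.swap_apply_left, Equiv.swap_apply_right, Q.adj_comm]
        · by_cases hy1 : y = z 1
          · rw [hx1, hy1]
            exact ⟨fun e => absurd rfl e.ne, fun e => absurd rfl e.ne⟩
          · rw [hx1, Equiv.swap_apply_right, Equiv.swap_apply_of_ne_of_ne hy0 hy1, Q.adj_comm,
              Q.adj_comm (z 1), hall y hy0 hy1]
      · rw [Equiv.swap_apply_of_ne_of_ne hx0 hx1]
        by_cases hy0 : y = z 0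
        · rw [hy0, Equiv.swap_apply_left, hall x hx0 hx1]
        · by_cases hy1 : y = z 1
          · rw [hy1, Equiv.swap_apply_right, hall x hx0 hx1]
          · rw [Equiv.swap_apply_of_ne_of_ne hy0 hy1]
  obtain ⟨δ, hδ1, hδ2⟩ := basic h hz 0 (by omega)
  obtain ⟨x, hx⟩ := h.ne _ (h.mul _ hδ1 _ hswap)
  apply hx
  rw [Equiv.Perm.mul_apply, hδ2]
  show w x = w (Equiv.swap (z 0) (z 1) (Equiv.swap (z 0) (z 1) x))
  rw [Equiv.swap_apply_self]

end Run7.h357.TW
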