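import Pool.Agent.Run7.h357.TW.Cyc
import Pool.Agent.Run7.h357.TW.Loc

set_option autoImplicit false
set_option linter.unusedSectionVars false

/-!
The theorem for the graph induced by a set of representatives of the twin classes.
-/

namespace Run7.h357.TW

open Finset Classical
open Pool.Agent.H234RC (Hypo NonIso Reconstructible exists_hypo)
open Pool.Agent.TH87.RVC (dS compl_hypo)

variable {V : Type} [Fintype V]

/-- twins -/
def Twin (G : SimpleGraph V) (x y : V) : Prop := ∀ z, G.Adj x z ↔ G.Adj y z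

/-- the size of the class of `x` -/
noncomputable def size (G : SimpleGraph V) (x : V) : ℕ := (univ.filter (fun y => Twin G x y)).card

/-- degree -/
noncomputable def deg (G : SimpleGraph V) (x : V) : ℕ := (univ.filter (fun y => G.Adj x y)).card

/-- the number of the members of `O` with class of size `s` -/
noncomputable def num (G : SimpleGraph V) (O : Finset V) (s : ℕ) : ℕ :=
  (O.filter (fun x => size G x = s)).card

/-- `X` has exactly one vertex in every class -/
def Reps (G : SimpleGraph V) (X : Finset V) : Prop := ∀ v, ∃! x, x ∈ X ∧ Twin G v x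

/-- automorphism of the graph induced by `X` -/
def IsAut (G : SimpleGraph V) (X : Finset V) (σ : Equiv.Perm X) : Prop :=
  ∀ x y : X, G.Adj (σ x) (σ y) ↔ G.Adj x y

theorem Twin.symm {G : SimpleGraph V} {x y : V} (h : Twin G x y) : Twin G y x :=
  fun z => (h z).symm

theorem Twin.trans {G : SimpleGraph V} {x y z : V} (h : Twin G x y) (h' : Twin G y z) :
    Twin G x z := fun u => (h u).trans (h' u)

/-- the representative -/
noncomputable def rep {G : SimpleGraph V} {X : Finset V} (hX : Reps G X) (v : V) : X :=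
  ⟨(hX v).choose, (hX v).choose_spec.1.1⟩

theorem rep_twin {G : SimpleGraph V} {X : Finset V} (hX : Reps G X) (v : V) :
    Twin G v (rep hX v) := (hX v).choose_spec.1.2

theorem rep_eq {G : SimpleGraph V} {X : Finset V} (hX : Reps G X) (v : V) (x : X)
    (h : Twin G v x) : rep hX v = x := by
  apply Subtype.ext
  exact ((hX v).choose_spec.2 x.1 ⟨x.2, h⟩).symm

/-- the induced graph -/
def ind (G : SimpleGraph V) (X : Finset V) : SimpleGraph X := G.comap (fun x : X => (x : V))

theorem quo {G : SimpleGraph V} {X : Finset V} (hX : Reps G X) : Quo G (ind G X) (rep hX) := by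
  refine ⟨fun x => ⟨x.1, rep_eq hX _ _ (fun z => Iff.rfl)⟩, ?_, ?_⟩
  · intro x y
    show _ ↔ G.Adj (rep hX x : V) (rep hX y : V)
    rw [rep_twin hX x, G.adj_comm, rep_twin hX y, G.adj_comm]
  · intro a b hab
    have h1 : Twin G (a : V) (b : V) := by
      intro z
      have h2 : G.Adj (a : V) (rep hX z : V) ↔ G.Adj (b : V) (rep hX z : V) := hab (rep hX z)
      rw [G.adj_comm, rep_twin hX z, G.adj_comm, h2, G.adj_comm (b : V) z, rep_twin hX z,
        G.adj_comm (b : V)]
    rw [← rep_eq hX (a : V) b h1, rep_eq hX (a : V) a (fun z => Iff.rfl)]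

theorem wt_rep {G : SimpleGraph V} {X : Finset V} (hX : Reps G X) (a : X) :
    wt (rep hX) a = size G a := by
  apply wt_eq_card
  intro v
  rw [mem_filter]
  constructor
  · rintro ⟨_, h⟩
    exact rep_eq hX v a h.symm
  · intro h
    refine ⟨mem_univ _, ?_⟩
    rw [← h]
    exact (rep_twin hX v).symm

theorem card_sub {X : Finset V} (O : Finset V) (hO : O ⊆ X) (P : V → Prop)
    [DecidablePred P] :
    ((univ.filter (fun x : X => (x : V) ∈ O)).filter (fun x : X => P x)).card =
      (O.filter P).card := by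
  refine Finset.card_bij (fun x _ => (x : V)) ?_ ?_ ?_
  · intro x hx
    rw [mem_filter, mem_filter] at hx
    rw [mem_filter]
    exact ⟨hx.1.2, hx.2⟩
  · intro x _ y _ h
    exact Subtype.ext h
  · intro x hx
    rw [mem_filter] at hx
    refine ⟨⟨x, hO hx.1⟩, ?_, rfl⟩
    rw [mem_filter, mem_filter]
    exact ⟨⟨mem_univ _, hx.1⟩, hx.2⟩

theorem card_sub' {X : Finset V} (P : V → Prop) [DecidablePred P] :
    (univ.filter (fun x : X => P x)).card = (X.filter P).card := by
  rw [← card_sub X subset_rfl P]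
  congr 1
  ext x
  rw [mem_filter, mem_filter, mem_filter]
  exact ⟨fun h => ⟨⟨mem_univ _, x.2⟩, h.2⟩, fun h => ⟨mem_univ _, h.2⟩⟩

theorem core {G H : SimpleGraph V} {π : V → Equiv.Perm V} (hH : Hypo G H π) (hN : NonIso G H)
    {X : Finset V} (hX : Reps G X) (hbig : X.card + 2 ≤ Fintype.card V) :
    (∃ p' : V → X, Quo H (ind G X) p' ∧
      Same (AutQ (ind G X)) Set.univ (fun a : X => size G a) (wt p')) ∧
      ∀ x ∈ X, 2 ≤ size G x → ∃ y ∈ X, size G y + 1 = size G x ∧
        deg G y = deg G x + if G.Adj x y then 1 else 0 := by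
  have h1 := same (quo hX) π hH.fix hH.adj (by rw [Fintype.card_coe]; exact hbig) hN
  have hw : wt (rep hX) = fun a : X => size G a := funext (wt_rep hX)
  rw [hw] at h1
  refine ⟨h1.1, ?_⟩
  intro x hx h2
  have hrx : rep hX x = ⟨x, hx⟩ := rep_eq hX x ⟨x, hx⟩ (fun z => Iff.rfl)
  obtain ⟨u, hu1, hu2⟩ := h1.2 x (by show 2 ≤ size G (rep hX x : V); rw [hrx]; exact h2)
  have hu3 : size G (rep hX u : V) + 1 = size G x := by
    have : size G (rep hX u : V) + 1 = size G (rep hX x : V) := hu1
    rw [hrx] at this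
    exact this
  refine ⟨rep hX u, (rep hX u).2, hu3, ?_⟩
  have h3 : deg G (rep hX u : V) = deg G u := by
    unfold deg
    congr 1
    ext z
    rw [mem_filter, mem_filter, rep_twin hX u z]
  have h4 : G.Adj x (rep hX u : V) ↔ G.Adj u x := by
    rw [G.adj_comm, rep_twin hX u x]
  rw [h3]
  have h5 : deg G u = deg G x + if G.Adj u x then 1 else 0 := hu2
  rw [h5]
  by_cases h6 : G.Adj u x
  · rw [if_pos h6, if_pos (h4.mpr h6)]
  · rw [if_neg h6, if_neg (fun h => h6 (h4.mp h))]

/-- the condition of the theorem -/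
def Cond (G : SimpleGraph V) (X : Finset V) : Prop :=
  (3 ≤ Fintype.card V ∧ ∃ s, 2 ≤ s ∧ num G X (s - 1) < num G X s) ∨
  (X.card + 2 ≤ Fintype.card V ∧
    ((∃ s, 2 ≤ s ∧ ∃ O ⊆ X, (∀ σ, IsAut G X σ → ∀ x : X, (x : V) ∈ O → (σ x : V) ∈ O) ∧
        num G O (s - 1) < num G O s) ∨
      (∃ s, 2 ≤ s ∧ 2 ≤ num G X s ∧ ∃ O ⊆ X, (∀ σ, IsAut G X σ →
        (∀ x : X, size G (σ x) = size G x ∨
          ((size G (σ x) = s - 1 ∨ size G (σ x) = s) ∧ (size G x = s - 1 ∨ size G x = s))) →
            ∀ x : X, (x : V) ∈ O → (σ x : V) ∈ O) ∧ num G O (s - 1) < num G O s) ∨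
      (∃ x ∈ X, 2 ≤ size G x ∧ ∀ y ∈ X, size G y + 1 = size G x →
        deg G y ≠ deg G x + if G.Adj x y then 1 else 0) ∨
      (∃ B ⊆ X, Even B.card ∧ (∀ x ∈ B, 2 ≤ size G x) ∧ ∀ σ, IsAut G X σ →
        ¬ ((∀ x : X, (x : V) ∈ B → size G x = size G (σ x) + 1) ∧
          ∀ x : X, (x : V) ∉ B → size G x ≤ size G (σ x))) ∨
      (2 * (univ.filter (fun σ : Equiv.Perm X => IsAut G X σ ∧
          ∀ x : X, size G x ≤ size G (σ x) + 1)).card <
        2 ^ (X.filter (fun x => 2 ≤ size G x)).card *
          (univ.filter (fun σ : Equiv.Perm X => IsAut G X σ ∧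
            ∀ x : X, size G (σ x) = size G x)).card) ∨
      (∃ p a, p.Prime ∧ 3 ≤ p ∧ (∀ s, num G X s < p) ∧
        ∀ i, 1 ≤ i → i ≤ p → num G X (a + i) = 1)))

theorem size_sum {G : SimpleGraph V} {X : Finset V} (hX : Reps G X) :
    ∑ a : X, size G a = Fintype.card V := by
  have h1 := sum_wt (rep hX) (fun _ => 1)
  simp only [mul_one] at h1
  rw [sum_const, smul_eq_mul, mul_one, card_univ] at h1
  rw [h1]
  apply sum_congr rfl
  intro a _
  rw [wt_rep]

theorem one_le_size (G : SimpleGraph V) (x : V) : 1 ≤ size G x :=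
  card_pos.mpr ⟨x, mem_filter.mpr ⟨mem_univ _, fun _ => Iff.rfl⟩⟩

/-- in the first case there are two superfluous vertices -/
theorem big_of_num {G : SimpleGraph V} {X : Finset V} (hX : Reps G X) (h3 : 3 ≤ Fintype.card V)
    (s : ℕ) (hs : 2 ≤ s) (hn : num G X (s - 1) < num G X s) : X.card + 2 ≤ Fintype.card V := by
  by_contra hcon
  have hsum := size_sum hX
  have hpos : 0 < num G X s := by omega
  obtain ⟨a, ha⟩ := card_pos.mp hpos
  rw [mem_filter] at ha
  have hsum' : ∑ x ∈ X, size G x = Fintype.card V := by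
    rw [← hsum, ← Finset.sum_coe_sort]
  rw [← add_sum_erase X _ ha.1, ha.2] at hsum'
  have hone : ∀ x ∈ X.erase a, 1 ≤ size G x := fun x _ => one_le_size G x
  have hge : (X.erase a).card ≤ ∑ x ∈ X.erase a, size G x := by
    rw [card_eq_sum_ones]
    exact sum_le_sum hone
  have hXc : (X.erase a).card + 1 = X.card := card_erase_add_one ha.1
  have hs2 : s = 2 := by omega
  subst hs2
  have heq : ∑ x ∈ X.erase a, size G x = (X.erase a).card := by omega
  have hall : ∀ x ∈ X.erase a, size G x = 1 := by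
    intro x hx
    by_contra hne
    have h1 := one_le_size G x
    have h2 : ∑ x ∈ X.erase a, 1 < ∑ x ∈ X.erase a, size G x :=
      sum_lt_sum hone ⟨x, hx, by omega⟩
    rw [← card_eq_sum_ones] at h2
    omega
  have hn1 : (X.erase a).card ≤ num G X (2 - 1) := by
    apply card_le_card
    intro x hx
    exact mem_filter.mpr ⟨(mem_erase.mp hx).2, hall x hx⟩
  have hn2 : num G X 2 ≤ 1 := by
    unfold num
    rw [card_le_one]
    intro x hx y hy
    rw [mem_filter] at hx hy
    have hxa : x = a := by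
      by_contra hne
      have := hall x (mem_erase.mpr ⟨hne, hx.1⟩)
      omega
    have hya : y = a := by
      by_contra hne
      have := hall y (mem_erase.mpr ⟨hne, hy.1⟩)
      omega
    rw [hxa, hya]
  omega

theorem no_hypo {G H : SimpleGraph V} {π : V → Equiv.Perm V} (hH : Hypo G H π) (hN : NonIso G H)
    {X : Finset V} (hX : Reps G X) (hC : Cond G X) : False := by
  have hbig : X.card + 2 ≤ Fintype.card V := by
    rcases hC with ⟨h3, s, hs, hn⟩ | ⟨h, _⟩
    · exact big_of_num hX h3 s hs hn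
    · exact h
  obtain ⟨⟨p', _, hS⟩, hdeg⟩ := core hH hN hX hbig
  have hAut : ∀ σ : Equiv.Perm X, σ ∈ AutQ (ind G X) ↔ IsAut G X σ := fun σ => mem_AutQ _ σ
  have horb : ∀ s, 2 ≤ s → ∀ O ⊆ X, (∀ σ, IsAut G X σ → ∀ x : X, (x : V) ∈ O → (σ x : V) ∈ O) →
      num G O s ≤ num G O (s - 1) := by
    intro s hs O hOX hO
    set O' := univ.filter (fun x : X => (x : V) ∈ O) with hO'
    have hinv : ∀ γ ∈ AutQ (ind G X), ∀ x ∈ O', γ x ∈ O' := by
      intro γ hγ x hx
      rw [hO', mem_filter] at hx ⊢
      exact ⟨mem_univ _, hO γ ((hAut γ).mp hγ) x hx.2⟩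
    have h1 := level_le hS O' hinv s (Set.mem_univ _) hs (lev_eq hS O' hinv)
    rw [hO', card_sub O hOX (fun x => size G x = s),
      card_sub O hOX (fun x => size G x = s - 1)] at h1
    exact h1
  rcases hC with ⟨h3, s, hs, hn⟩ | ⟨_, hC⟩
  · exact absurd hn (not_lt.mpr (horb s hs X subset_rfl (fun σ _ x _ => (σ x).2)))
  rcases hC with ⟨s, hs, O, hOX, hO, hn⟩ | hC
  · exact absurd hn (not_lt.mpr (horb s hs O hOX hO))
  rcases hC with ⟨s, hs, hn2, O, hOX, hO, hn⟩ | hC
  · set O' := univ.filter (fun x : X => (x : V) ∈ O) with hO'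
    have hinv : ∀ γ ∈ AutQ (ind G X), (∀ x : X, col s (size G (γ x)) = col s (size G x)) →
        ∀ x ∈ O', γ x ∈ O' := by
      intro γ hγ hcol x hx
      rw [hO', mem_filter] at hx ⊢
      refine ⟨mem_univ _, hO γ ((hAut γ).mp hγ) ?_ x hx.2⟩
      intro y
      have h1 := hcol y
      unfold col at h1
      split_ifs at h1 with h2 h3
      · left; rw [h2, h3]
      · right; exact ⟨Or.inr h2, Or.inl h1.symm⟩
      · right; exact ⟨Or.inl h1, Or.inr (by assumption)⟩
      · left; exact h1
    have h1 := local_le hS s hs (by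
      rw [card_sub' (X := X) (fun x => size G x = s)]
      exact hn2) O' hinv
    rw [hO', card_sub O hOX (fun x => size G x = s),
      card_sub O hOX (fun x => size G x = s - 1)] at h1
    exact absurd hn (not_lt.mpr h1)
  rcases hC with ⟨x, hx, hx2, hy⟩ | hC
  · obtain ⟨y, hyX, hy1, hy2⟩ := hdeg x hx hx2
    exact hy y hyX hy1 hy2
  rcases hC with ⟨B, hBX, hBe, hB2, hB⟩ | hC
  · set B' := univ.filter (fun x : X => (x : V) ∈ B) with hB'
    have hBc : B'.card = B.card := by
      rw [hB', card_sub' (X := X) (fun x => x ∈ B)]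
      congr 1
      ext x
      rw [mem_filter]
      exact ⟨fun h => h.2, fun h => ⟨hBX h, h⟩⟩
    obtain ⟨γ, hγ, h1, h2⟩ := even_ex hS B' (fun y hy => hB2 y (by
      rw [hB', mem_filter] at hy; exact hy.2)) (by rw [hBc]; exact hBe)
    exact hB γ ((hAut γ).mp hγ) ⟨fun x hx => h1 x (mem_filter.mpr ⟨mem_univ _, hx⟩),
      fun x hx => h2 x (fun h => hx (mem_filter.mp h).2)⟩
  rcases hC with hC | ⟨p, a, hp, hp3, hlt, hcons⟩
  · have h1 := pow_le hS
    rw [card_sub' (X := X) (fun x => 2 ≤ size G x)] at h1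
    have e1 : (AutQ (ind G X)).filter (fun γ => ∀ y : X, size G (γ y) = size G y) =
        univ.filter (fun σ : Equiv.Perm X => IsAut G X σ ∧ ∀ x : X, size G (σ x) = size G x) := by
      ext γ
      rw [mem_filter, mem_filter, hAut]
      exact ⟨fun h => ⟨mem_univ _, h⟩, fun h => h.2⟩
    have e2 : (AutQ (ind G X)).filter (fun γ => ∀ y : X, size G y ≤ size G (γ y) + 1) =
        univ.filter (fun σ : Equiv.Perm X => IsAut G X σ ∧
          ∀ x : X, size G x ≤ size G (σ x) + 1) := by
      ext γ
      rw [mem_filter, mem_filter, hAut]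
      exact ⟨fun h => ⟨mem_univ _, h⟩, fun h => h.2⟩
    rw [e1, e2] at h1
    exact absurd hC (not_lt.mpr h1)
  · have hex : ∀ i, i < p → ∃ x : X, size G x = a + 1 + i ∧
        ∀ y : X, size G y = a + 1 + i → y = x := by
      intro i hi
      have h1 := hcons (i + 1) (by omega) (by omega)
      unfold num at h1
      rw [← card_sub' (X := X) (fun x => size G x = a + (i + 1)), card_eq_one] at h1
      obtain ⟨x, hx⟩ := h1
      have h2 : ∀ y : X, size G y = a + 1 + i ↔ y = x := by
        intro y
        rw [← mem_singleton (a := x), ← hx, mem_filter]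
        constructor
        · intro h; exact ⟨mem_univ _, by omega⟩
        · rintro ⟨_, h⟩; omega
      exact ⟨x, (h2 x).mpr rfl, fun y hy => (h2 y).mp hy⟩
    have : Nonempty X := ⟨(hex 0 (by omega)).choose⟩
    choose! z hz1 hz2 using hex
    refine cyc_main hS (a := a) (p := p) (z := z) ⟨hz1, fun i hi x hx => hz2 i hi x hx⟩ hp hp3 ?_
    intro s
    rw [card_sub' (X := X) (fun x => size G x = s)]
    exact hlt s

theorem main (G : SimpleGraph V) (X : Finset V) (hX : Reps G X) (hC : Cond G X) :
    Reconstructible G ∧ Reconstructible Gᶜ := by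
  constructor
  · by_contra hcon
    obtain ⟨H, π, hH, hN⟩ := exists_hypo G hcon
    exact no_hypo hH hN hX hC
  · by_contra hcon
    obtain ⟨H, π, hH, hN⟩ := exists_hypo Gᶜ hcon
    obtain ⟨hH', hN'⟩ := compl_hypo hH hN
    exact no_hypo hH' hN' hX hC

/-- classes of pairwise different sizes -/
theorem cond_of_distinct {G : SimpleGraph V} {X : Finset V} (hX : Reps G X)
    (h4 : 4 ≤ Fintype.card V) (hn : ∀ s, num G X s ≤ 1) : Cond G X := by
  by_cases hex : ∃ s, 2 ≤ s ∧ num G X (s - 1) < num G X s
  · exact Or.inl ⟨by omega, hex⟩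
  push Not at hex
  have hsum : ∑ x ∈ X, size G x = Fintype.card V := by
    rw [← size_sum hX, ← Finset.sum_coe_sort]
  have hn3 : 1 ≤ num G X 3 := by
    by_contra hcon
    have hzero : ∀ s, num G X (s + 3) = 0 := by
      intro s
      induction s with
      | zero =>
        rw [Nat.zero_add]
        omega
      | succ s ih =>
        have h1 := hex (s + 1 + 3) (by omega)
        have h2 : s + 1 + 3 - 1 = s + 3 := by omega
        rw [h2, ih] at h1
        omega
    have hle : ∀ x ∈ X, size G x = 1 ∨ size G x = 2 := by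
      intro x hx
      by_contra hne
      have h1 := one_le_size G x
      have h2 := hzero (size G x - 3)
      have h3 : size G x - 3 + 3 = size G x := by omega
      rw [h3] at h2
      unfold num at h2
      rw [card_eq_zero, filter_eq_empty_iff] at h2
      exact h2 hx rfl
    have h5 : ∑ x ∈ X, size G x = num G X 1 * 1 + num G X 2 * 2 := by
      rw [← sum_filter_add_sum_filter_not X (fun x => size G x = 1)]
      congr 1
      · unfold num
        rw [sum_congr rfl (fun x hx => (mem_filter.mp hx).2), sum_const, smul_eq_mul]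
      · unfold num
        have h6 : X.filter (fun x => ¬ size G x = 1) = X.filter (fun x => size G x = 2) := by
          apply filter_congr
          intro x hx
          rcases hle x hx with h7 | h7 <;> omega
        rw [h6, sum_congr rfl (fun x hx => (mem_filter.mp hx).2), sum_const, smul_eq_mul]
    have := hn 1
    have := hn 2
    omega
  have h32 := hex 3 (by omega)
  have h21 := hex 2 (by omega)
  have := hn 3
  have := hn 2
  have := hn 1
  obtain ⟨a, ha⟩ := card_pos.mp (show 0 < num G X 3 by omega)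
  rw [mem_filter] at ha
  refine Or.inr ⟨?_, Or.inr (Or.inr (Or.inr (Or.inr (Or.inr ⟨3, 0, Nat.prime_three, le_rfl,
    fun s => ?_, fun i h1 h3 => ?_⟩))))⟩
  · rw [← hsum, ← add_sum_erase X _ ha.1, ha.2]
    have h6 : (X.erase a).card ≤ ∑ x ∈ X.erase a, size G x := by
      rw [card_eq_sum_ones]
      exact sum_le_sum (fun x _ => one_le_size G x)
    have h7 : (X.erase a).card + 1 = X.card := card_erase_add_one ha.1
    omega
  · have := hn s
    omega
  · have : i = 1 ∨ i = 2 ∨ i = 3 := by omega
    have e1 : num G X (3 - 1) = num G X 2 := rfl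
    have e2 : num G X (2 - 1) = num G X 1 := rfl
    rcases this with rfl | rfl | rfl
    · show num G X (0 + 1) = 1
      rw [Nat.zero_add]
      omega
    · show num G X (0 + 2) = 1
      rw [Nat.zero_add]
      omega
    · show num G X (0 + 3) = 1
      rw [Nat.zero_add]
      omega

end Run7.h357.TW
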