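import Mathlib

set_option autoImplicit false
set_option linter.unusedSectionVars false

/-!
Twins in graphs: cards with the largest number of distinct neighbourhoods.
-/

namespace Run7.h357.TW

open Finset Classical

variable {V : Type} [Fintype V]

/-- the neighbourhood -/
noncomputable def nb (K : SimpleGraph V) (x : V) : Finset V := univ.filter (fun z => K.Adj x z)

theorem mem_nb (K : SimpleGraph V) (x z : V) : z ∈ nb K x ↔ K.Adj x z := by
  unfold nb; rw [mem_filter]; exact ⟨fun h => h.2, fun h => ⟨mem_univ _, h⟩⟩

/-- the number of the distinct neighbourhoods -/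
noncomputable def qq (K : SimpleGraph V) : ℕ := (univ.image (nb K)).card

/-- the number of the distinct neighbourhoods in `K - v` -/
noncomputable def qv (K : SimpleGraph V) (v : V) : ℕ :=
  ((univ.erase v).image (fun x => (nb K x).erase v)).card

/-- `v` has a twin -/
def HasTwin (K : SimpleGraph V) (v : V) : Prop := ∃ v', v' ≠ v ∧ nb K v' = nb K v

theorem qv_of_twin (K : SimpleGraph V) (v : V) (h : HasTwin K v) : qv K v = qq K := by
  obtain ⟨v', hne, hv⟩ := h
  have h1 : univ.image (nb K) = (univ.erase v).image (nb K) := by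
    ext A
    rw [mem_image, mem_image]
    constructor
    · rintro ⟨x, _, rfl⟩
      by_cases hx : x = v
      · exact ⟨v', mem_erase.mpr ⟨hne, mem_univ _⟩, by rw [hv, hx]⟩
      · exact ⟨x, mem_erase.mpr ⟨hx, mem_univ _⟩, rfl⟩
    · rintro ⟨x, _, rfl⟩
      exact ⟨x, mem_univ _, rfl⟩
  have h2 : (univ.erase v).image (fun x => (nb K x).erase v) =
      ((univ.erase v).image (nb K)).image (fun A => A.erase v) := by
    rw [image_image]; rfl
  unfold qv qq
  rw [h2, h1]
  apply card_image_of_injOn
  intro A hA B hB hAB
  rw [mem_coe, mem_image] at hA hB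
  obtain ⟨x, _, rfl⟩ := hA
  obtain ⟨y, _, rfl⟩ := hB
  have key : ∀ z, z ≠ v → (z ∈ nb K x ↔ z ∈ nb K y) := by
    intro z hz
    have h3 : z ∈ (nb K x).erase v ↔ z ∈ (nb K y).erase v := by
      show z ∈ (fun A : Finset V => A.erase v) (nb K x) ↔ _
      rw [hAB]
    rw [mem_erase, mem_erase] at h3
    constructor
    · intro h4; exact (h3.mp ⟨hz, h4⟩).2
    · intro h4; exact (h3.mpr ⟨hz, h4⟩).2
  have hvx : ∀ x, v ∈ nb K x ↔ v' ∈ nb K x := by
    intro x
    rw [mem_nb, mem_nb, K.adj_comm, K.adj_comm x v', ← mem_nb, ← mem_nb, hv]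
  ext z
  by_cases hz : z = v
  · rw [hz, hvx, hvx, key v' hne]
  · exact key z hz

theorem qv_of_not_twin (K : SimpleGraph V) (v : V) (h : ¬ HasTwin K v) : qv K v < qq K := by
  have h2 : (univ.erase v).image (fun x => (nb K x).erase v) =
      ((univ.erase v).image (nb K)).image (fun A => A.erase v) := by
    rw [image_image]; rfl
  unfold qv qq
  rw [h2]
  refine lt_of_le_of_lt card_image_le ?_
  apply card_lt_card
  rw [Finset.ssubset_iff_of_subset (image_subset_image (subset_univ _))]
  refine ⟨nb K v, mem_image_of_mem _ (mem_univ _), fun hv => ?_⟩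
  rw [mem_image] at hv
  obtain ⟨x, hx, hxv⟩ := hv
  exact h ⟨x, (mem_erase.mp hx).1, hxv⟩

/-- **Bondy's theorem**, general form. -/
theorem bondy_aux (f : V → Finset V) (hf : Function.Injective f) (S : Finset V) (hS : S.Nonempty) :
    ∃ D : Finset V, D.card + 1 ≤ S.card ∧ ∀ x ∈ S, ∀ y ∈ S, f x ∩ D = f y ∩ D → x = y := by
  induction S using Finset.induction_on with
  | empty => exact absurd hS not_nonempty_empty
  | insert a S ha ih =>
    rcases S.eq_empty_or_nonempty with rfl | hne
    · refine ⟨∅, by simp, ?_⟩
      intro x hx y hy _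
      rw [insert_empty_eq, mem_singleton] at hx hy
      rw [hx, hy]
    · obtain ⟨D, hD, hDS⟩ := ih hne
      rw [card_insert_of_notMem ha]
      by_cases hex : ∃ b ∈ S, f a ∩ D = f b ∩ D
      · obtain ⟨b, hb, hab⟩ := hex
        have hne' : f a ≠ f b := fun h => ha (by rw [hf h]; exact hb)
        have hz : ∃ z, ¬ (z ∈ f a ↔ z ∈ f b) := by
          by_contra hcon
          push Not at hcon
          exact hne' (Finset.ext hcon)
        obtain ⟨z, hz⟩ := hz
        refine ⟨insert z D, ?_, ?_⟩
        · have := card_insert_le z D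
          omega
        · have hmono : ∀ x y, f x ∩ insert z D = f y ∩ insert z D →
              f x ∩ D = f y ∩ D ∧ (z ∈ f x ↔ z ∈ f y) := by
            intro x y h
            have h3 : ∀ u, u ∈ insert z D → (u ∈ f x ↔ u ∈ f y) := by
              intro u hu
              have h4 : u ∈ f x ∩ insert z D ↔ u ∈ f y ∩ insert z D := by rw [h]
              rw [mem_inter, mem_inter] at h4
              exact ⟨fun h5 => (h4.mp ⟨h5, hu⟩).1, fun h5 => (h4.mpr ⟨h5, hu⟩).1⟩
            refine ⟨?_, h3 z (mem_insert_self _ _)⟩
            ext u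
            rw [mem_inter, mem_inter]
            constructor
            · rintro ⟨h5, h6⟩; exact ⟨(h3 u (mem_insert_of_mem h6)).mp h5, h6⟩
            · rintro ⟨h5, h6⟩; exact ⟨(h3 u (mem_insert_of_mem h6)).mpr h5, h6⟩
          have haS : ∀ y ∈ S, f a ∩ insert z D ≠ f y ∩ insert z D := by
            intro y hy h
            obtain ⟨h1, h2⟩ := hmono _ _ h
            have h3 : b = y := hDS b hb y hy (by rw [← hab, h1])
            rw [← h3] at h2
            exact hz h2
          intro x hx y hy h
          rw [mem_insert] at hx hy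
          rcases hx with rfl | hx
          · rcases hy with rfl | hy
            · rfl
            · exact absurd h (haS y hy)
          · rcases hy with rfl | hy
            · exact absurd h.symm (haS x hx)
            · exact hDS x hx y hy (hmono _ _ h).1
      · push Not at hex
        refine ⟨D, by omega, ?_⟩
        intro x hx y hy h
        rw [mem_insert] at hx hy
        rcases hx with rfl | hx
        · rcases hy with rfl | hy
          · rfl
          · exact absurd h (hex y hy)
        · rcases hy with rfl | hy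
          · exact absurd h.symm (hex x hx)
          · exact hDS x hx y hy h

/-- a graph without twins has a card with all neighbourhoods distinct -/
theorem bondy [Nonempty V] (K : SimpleGraph V) (h : ∀ v, ¬ HasTwin K v) :
    ∃ v, qv K v + 1 = Fintype.card V := by
  have hf : Function.Injective (nb K) := by
    intro x y hxy
    by_contra hne
    exact h y ⟨x, hne, hxy⟩
  obtain ⟨D, hD, hDS⟩ := bondy_aux (nb K) hf univ univ_nonempty
  rw [card_univ] at hD
  have hv : ∃ v, v ∉ D := by
    by_contra hcon
    push Not at hcon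
    have : D = univ := eq_univ_of_forall hcon
    rw [this, card_univ] at hD
    omega
  obtain ⟨v, hv⟩ := hv
  refine ⟨v, ?_⟩
  unfold qv
  rw [card_image_of_injOn, card_erase_of_mem (mem_univ _), card_univ]
  · have := Fintype.card_pos (α := V)
    omega
  · intro x _ y _ hxy
    apply hDS x (mem_univ _) y (mem_univ _)
    ext z
    rw [mem_inter, mem_inter]
    have h3 : z ∈ (nb K x).erase v ↔ z ∈ (nb K y).erase v := by
      show z ∈ (fun x => (nb K x).erase v) x ↔ _
      rw [hxy]
    rw [mem_erase, mem_erase] at h3
    constructor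
    · rintro ⟨h5, h6⟩
      have hz : z ≠ v := fun e => hv (e ▸ h6)
      exact ⟨(h3.mp ⟨hz, h5⟩).2, h6⟩
    · rintro ⟨h5, h6⟩
      have hz : z ≠ v := fun e => hv (e ▸ h6)
      exact ⟨(h3.mpr ⟨hz, h5⟩).2, h6⟩

/-- hypomorphic cards have the same number of distinct neighbourhoods -/
theorem qv_eq {G H : SimpleGraph V} (v : V) (σ : Equiv.Perm V) (hσ : σ v = v)
    (h : ∀ x y, x ≠ v → y ≠ v → (H.Adj (σ x) (σ y) ↔ G.Adj x y)) : qv G v = qv H v := by
  have hmap : ∀ x, x ≠ v → ((nb G x).erase v).map σ.toEmbedding = (nb H (σ x)).erase v := by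
    intro x hx
    ext z
    rw [mem_map, mem_erase, mem_nb]
    constructor
    · rintro ⟨y, hy, rfl⟩
      rw [mem_erase, mem_nb] at hy
      refine ⟨?_, (h x y hx hy.1).mpr hy.2⟩
      intro e
      apply hy.1
      apply σ.injective
      rw [hσ]
      exact e
    · rintro ⟨h1, h2⟩
      refine ⟨σ.symm z, ?_, by simp⟩
      have h3 : σ.symm z ≠ v := by
        intro e
        apply h1
        rw [← σ.apply_symm_apply z, e, hσ]
      rw [mem_erase, mem_nb]
      refine ⟨h3, ?_⟩
      rw [← h x _ hx h3, σ.apply_symm_apply]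
      exact h2
  unfold qv
  have h1 : (univ.erase v).image (fun x => (nb H x).erase v) =
      ((univ.erase v).image (fun x => (nb G x).erase v)).image (fun A => A.map σ.toEmbedding) := by
    ext A
    rw [mem_image, mem_image]
    constructor
    · rintro ⟨x, hx, rfl⟩
      have h3 : σ.symm x ≠ v := by
        intro e
        apply (mem_erase.mp hx).1
        rw [← σ.apply_symm_apply x, e, hσ]
      refine ⟨(nb G (σ.symm x)).erase v, mem_image_of_mem _ (mem_erase.mpr ⟨h3, mem_univ _⟩), ?_⟩
      rw [hmap _ h3, σ.apply_symm_apply]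
    · rintro ⟨B, hB, rfl⟩
      rw [mem_image] at hB
      obtain ⟨x, hx, rfl⟩ := hB
      have hxv := (mem_erase.mp hx).1
      refine ⟨σ x, mem_erase.mpr ⟨?_, mem_univ _⟩, (hmap x hxv).symm⟩
      intro e
      apply hxv
      apply σ.injective
      rw [hσ, e]
  rw [h1, card_image_of_injective _ (Finset.map_injective _)]

/-- the vertices with twins are the same in hypomorphic graphs, if there are at least two
superfluous vertices -/
theorem twin_iff {G H : SimpleGraph V} (π : V → Equiv.Perm V) (hfix : ∀ v, π v v = v)
    (hadj : ∀ v x y, x ≠ v → y ≠ v → (H.Adj (π v x) (π v y) ↔ G.Adj x y))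
    (hbig : qq G + 2 ≤ Fintype.card V) (v : V) : HasTwin G v ↔ HasTwin H v := by
  haveI : Nonempty V := ⟨v⟩
  have hq : ∀ v, qv G v = qv H v := fun v => qv_eq v (π v) (hfix v) (hadj v)
  have hG : ∃ a, HasTwin G a := by
    by_contra hcon
    push Not at hcon
    have h1 : qq G = Fintype.card V := by
      unfold qq
      rw [card_image_of_injective, card_univ]
      intro x y hxy
      by_contra hne
      exact hcon y ⟨x, hne, hxy⟩
    omega
  have hH : ∃ b, HasTwin H b := by
    by_contra hcon
    push Not at hcon
    obtain ⟨u, hu⟩ := bondy H hcon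
    have h1 : qv G u ≤ qq G := by
      by_cases h2 : HasTwin G u
      · exact (qv_of_twin G u h2).le
      · exact (qv_of_not_twin G u h2).le
    rw [hq u] at h1
    omega
  obtain ⟨a, ha⟩ := hG
  obtain ⟨b, hb⟩ := hH
  have hle : ∀ (K : SimpleGraph V) (u : V), qv K u ≤ qq K := by
    intro K u
    by_cases h2 : HasTwin K u
    · exact (qv_of_twin K u h2).le
    · exact (qv_of_not_twin K u h2).le
  have hqq : qq G = qq H := by
    apply le_antisymm
    · rw [← qv_of_twin G a ha, hq a]; exact hle H a
    · rw [← qv_of_twin H b hb, ← hq b]; exact hle G b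
  constructor
  · intro h
    by_contra hn
    have h1 := qv_of_twin G v h
    have h2 := qv_of_not_twin H v hn
    rw [← hq v] at h2
    omega
  · intro h
    by_contra hn
    have h1 := qv_of_twin H v h
    have h2 := qv_of_not_twin G v hn
    rw [hq v] at h2
    omega

end Run7.h357.TW
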