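import Pool.Agent.Run7.h357.TW.Core
import Pool.Agent.Run7.h357.TW.Rec
import Pool.Agent.TH87.RVC.Main

set_option autoImplicit false
set_option linter.unusedSectionVars false

/-!
The graph of the twin classes of hypomorphic graphs.
-/

namespace Run7.h357.TW

open Finset Classical
open Pool.Agent.TH87.RVC (dS dS_eq dS_card dS_erase)
open Pool.Agent.H234RC (Hypo)

variable {V X : Type} [Fintype V] [Fintype X]

/-- `Q` is the graph of the twin classes of `K`, and `p` the projection. -/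
structure Quo (K : SimpleGraph V) (Q : SimpleGraph X) (p : V → X) : Prop where
  surj : Function.Surjective p
  adj : ∀ x y, K.Adj x y ↔ Q.Adj (p x) (p y)
  free : ∀ a b, (∀ c, Q.Adj a c ↔ Q.Adj b c) → a = b

/-- the size of the class `a` -/
noncomputable def wt (p : V → X) (a : X) : ℕ := (univ.filter (fun v => p v = a)).card

theorem wt_eq_card (p : V → X) (a : X) (S : Finset V) (h : ∀ v, v ∈ S ↔ p v = a) :
    wt p a = S.card := by
  unfold wt
  congr 1
  ext v
  rw [mem_filter, h]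
  exact ⟨fun h => h.2, fun h => ⟨mem_univ _, h⟩⟩

theorem nb_iff {K : SimpleGraph V} {Q : SimpleGraph X} {p : V → X} (h : Quo K Q p) (x y : V) :
    nb K x = nb K y ↔ p x = p y := by
  constructor
  · intro hxy
    apply h.free
    intro c
    obtain ⟨z, rfl⟩ := h.surj c
    rw [← h.adj, ← h.adj, ← mem_nb, ← mem_nb, hxy]
  · intro hxy
    ext z
    rw [mem_nb, mem_nb, h.adj, h.adj, hxy]

theorem hasTwin_iff {K : SimpleGraph V} {Q : SimpleGraph X} {p : V → X} (h : Quo K Q p) (v : V) :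
    HasTwin K v ↔ 2 ≤ wt p (p v) := by
  unfold HasTwin wt
  rw [show (2 : ℕ) = 1 + 1 from rfl, Nat.succ_le_iff, Finset.one_lt_card]
  constructor
  · rintro ⟨v', hne, hv⟩
    rw [nb_iff h] at hv
    exact ⟨v', mem_filter.mpr ⟨mem_univ _, hv⟩, v, mem_filter.mpr ⟨mem_univ _, rfl⟩, hne⟩
  · rintro ⟨a, ha, b, hb, hab⟩
    rw [mem_filter] at ha hb
    by_cases hav : a = v
    · refine ⟨b, fun e => hab (by rw [hav, e]), ?_⟩
      rw [nb_iff h]; exact hb.2
    · refine ⟨a, hav, ?_⟩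
      rw [nb_iff h]; exact ha.2

theorem qq_eq {K : SimpleGraph V} {Q : SimpleGraph X} {p : V → X} (h : Quo K Q p) :
    qq K = Fintype.card X := by
  have h1 : univ.image (nb K) = (univ : Finset X).image (fun a => univ.filter (fun z => Q.Adj a (p z))) := by
    ext A
    rw [mem_image, mem_image]
    constructor
    · rintro ⟨x, _, rfl⟩
      refine ⟨p x, mem_univ _, ?_⟩
      ext z
      rw [mem_filter, mem_nb, h.adj]
      exact ⟨fun h => h.2, fun h => ⟨mem_univ _, h⟩⟩
    · rintro ⟨a, _, rfl⟩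
      obtain ⟨x, rfl⟩ := h.surj a
      refine ⟨x, mem_univ _, ?_⟩
      ext z
      rw [mem_filter, mem_nb, h.adj]
      exact ⟨fun h => ⟨mem_univ _, h⟩, fun h => h.2⟩
  unfold qq
  rw [h1, card_image_of_injective, card_univ]
  intro a b hab
  apply h.free
  intro c
  obtain ⟨z, rfl⟩ := h.surj c
  have : z ∈ univ.filter (fun z => Q.Adj a (p z)) ↔ z ∈ univ.filter (fun z => Q.Adj b (p z)) := by
    show z ∈ (fun a => univ.filter (fun z => Q.Adj a (p z))) a ↔ _
    rw [hab]
  rw [mem_filter, mem_filter] at this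
  exact ⟨fun h => (this.mp ⟨mem_univ _, h⟩).2, fun h => (this.mpr ⟨mem_univ _, h⟩).2⟩

theorem surj' {K : SimpleGraph V} {Q : SimpleGraph X} {p : V → X} (h : Quo K Q p) {v : V}
    (hv : HasTwin K v) (c : X) : ∃ z, z ≠ v ∧ p z = c := by
  obtain ⟨z, hz⟩ := h.surj c
  by_cases hzv : z = v
  · obtain ⟨v', hne, hv'⟩ := hv
    rw [nb_iff h] at hv'
    exact ⟨v', hne, by rw [hv', ← hzv, hz]⟩
  · exact ⟨z, hzv, hz⟩

theorem card_twin {K : SimpleGraph V} {Q : SimpleGraph X} {p : V → X} (h : Quo K Q p) {v : V}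
    (hv : HasTwin K v) (x y : V) (hxy : ∀ z, z ≠ v → (K.Adj x z ↔ K.Adj y z)) : p x = p y := by
  apply h.free
  intro c
  obtain ⟨z, hzv, rfl⟩ := surj' h hv c
  rw [← h.adj, ← h.adj]
  exact hxy z hzv

/-- the projection of a hypomorphic graph -/
theorem exists_quo {G H : SimpleGraph V} {Q : SimpleGraph X} {p : V → X} (h : Quo G Q p)
    (v : V) (σ : Equiv.Perm V) (hσ : σ v = v)
    (hadj : ∀ x y, x ≠ v → y ≠ v → (H.Adj (σ x) (σ y) ↔ G.Adj x y))
    (hG : HasTwin G v) (hH : HasTwin H v) : ∃ p' : V → X, Quo H Q p' := by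
  obtain ⟨v₁, hne, hv₁⟩ := hH
  have hs : ∀ y, y ≠ v → σ.symm y ≠ v := by
    intro y hy e
    apply hy
    rw [← σ.apply_symm_apply y, e, hσ]
  have hadj' : ∀ x y, x ≠ v → y ≠ v → (H.Adj x y ↔ Q.Adj (p (σ.symm x)) (p (σ.symm y))) := by
    intro x y hx hy
    rw [← h.adj, ← hadj _ _ (hs x hx) (hs y hy), σ.apply_symm_apply, σ.apply_symm_apply]
  have hv₂ : ∀ y, H.Adj v y ↔ H.Adj v₁ y := by
    intro y
    rw [← mem_nb, ← mem_nb, hv₁]
  refine ⟨fun y => if y = v then p (σ.symm v₁) else p (σ.symm y), ⟨?_, ?_, h.free⟩⟩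
  · intro c
    obtain ⟨z, hz, rfl⟩ := surj' h hG c
    refine ⟨σ z, ?_⟩
    have : σ z ≠ v := by
      intro e
      apply hz
      apply σ.injective
      rw [e, hσ]
    show (if σ z = v then _ else _) = _
    rw [if_neg this, σ.symm_apply_apply]
  · intro x y
    show _ ↔ Q.Adj (if x = v then _ else _) (if y = v then _ else _)
    by_cases hx : x = v
    · by_cases hy : y = v
      · rw [if_pos hx, if_pos hy, hx, hy]
        exact ⟨fun e => absurd rfl e.ne, fun e => absurd rfl e.ne⟩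
      · rw [if_pos hx, if_neg hy, hx, hv₂, hadj' v₁ y hne hy]
    · by_cases hy : y = v
      · rw [if_neg hx, if_pos hy, hy, H.adj_comm, hv₂, H.adj_comm, hadj' x v₁ hx hne]
      · rw [if_neg hx, if_neg hy, hadj' x y hx hy]

/-- the automorphisms of `Q` -/
noncomputable def AutQ (Q : SimpleGraph X) : Finset (Equiv.Perm X) :=
  univ.filter (fun γ => ∀ a b, Q.Adj (γ a) (γ b) ↔ Q.Adj a b)

theorem mem_AutQ (Q : SimpleGraph X) (γ : Equiv.Perm X) :
    γ ∈ AutQ Q ↔ ∀ a b, Q.Adj (γ a) (γ b) ↔ Q.Adj a b := by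
  unfold AutQ; rw [mem_filter]; exact ⟨fun h => h.2, fun h => ⟨mem_univ _, h⟩⟩

theorem low_eq (p : V → X) (v : V) (a : X) :
    low (wt p) (p v) a = (univ.filter (fun x => x ≠ v ∧ p x = a)).card := by
  unfold low wt
  have h1 : univ.filter (fun x => x ≠ v ∧ p x = a) = (univ.filter (fun x => p x = a)).erase v := by
    ext x
    rw [mem_filter, mem_erase, mem_filter]
    exact ⟨fun h => ⟨h.2.1, mem_univ _, h.2.2⟩, fun h => ⟨mem_univ _, h.1, h.2.2⟩⟩
  rw [h1]
  split_ifs with ha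
  · rw [card_erase_of_mem]
    rw [mem_filter]; exact ⟨mem_univ _, ha.symm⟩
  · rw [erase_eq_of_notMem]
    rw [mem_filter]
    rintro ⟨_, h⟩
    exact ha h.symm

theorem card_aut {G H : SimpleGraph V} {Q : SimpleGraph X} {p p' : V → X} (h : Quo G Q p)
    (h' : Quo H Q p') (v : V) (σ : Equiv.Perm V) (hσ : σ v = v)
    (hadj : ∀ x y, x ≠ v → y ≠ v → (H.Adj (σ x) (σ y) ↔ G.Adj x y))
    (hG : HasTwin G v) (hH : HasTwin H v) :
    ∃ γ ∈ AutQ Q, (∀ a, low (wt p) (p v) a = low (wt p') (p' v) (γ a)) ∧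
      ∀ x, x ≠ v → p' (σ x) = γ (p x) := by
  have hsv : ∀ x, x ≠ v → σ x ≠ v := by
    intro x hx e
    apply hx
    apply σ.injective
    rw [e, hσ]
  have hs : ∀ y, y ≠ v → σ.symm y ≠ v := by
    intro y hy e
    apply hy
    rw [← σ.apply_symm_apply y, e, hσ]
  choose r hr1 hr2 using surj' h hG
  have key : ∀ x y, x ≠ v → y ≠ v → p x = p y → p' (σ x) = p' (σ y) := by
    intro x y hx hy hxy
    apply card_twin h' hH
    intro z hz
    rw [← σ.apply_symm_apply z, hadj _ _ hx (hs z hz), hadj _ _ hy (hs z hz), h.adj, h.adj, hxy]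
  have hadjg : ∀ a b, Q.Adj (p' (σ (r a))) (p' (σ (r b))) ↔ Q.Adj a b := by
    intro a b
    rw [← h'.adj, hadj _ _ (hr1 a) (hr1 b), h.adj, hr2, hr2]
  have hinj : Function.Injective (fun a => p' (σ (r a))) := by
    intro a b hab
    have hab' : p' (σ (r a)) = p' (σ (r b)) := hab
    apply h.free
    intro c
    rw [← hadjg a c, ← hadjg b c, hab']
  let γ : Equiv.Perm X := Equiv.ofBijective _ (Finite.injective_iff_bijective.mp hinj)
  have hγ : ∀ a, γ a = p' (σ (r a)) := fun a => rfl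
  have hγp : ∀ x, x ≠ v → p' (σ x) = γ (p x) := by
    intro x hx
    rw [hγ]
    exact key _ _ hx (hr1 _) (hr2 _).symm
  refine ⟨γ, (mem_AutQ _ _).mpr (fun a b => by rw [hγ, hγ, hadjg]), fun a => ?_, hγp⟩
  rw [low_eq, low_eq]
  refine Finset.card_nbij' (fun x => σ x) (fun y => σ.symm y) ?_ ?_ ?_ ?_
  · intro x hx
    rw [mem_coe, mem_filter] at hx ⊢
    refine ⟨mem_univ _, hsv x hx.2.1, ?_⟩
    rw [hγp x hx.2.1, hx.2.2]
  · intro y hy
    rw [mem_coe, mem_filter] at hy ⊢
    refine ⟨mem_univ _, hs y hy.2.1, ?_⟩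
    apply γ.injective
    rw [← hγp _ (hs y hy.2.1), σ.apply_symm_apply, hy.2.2]
  · intro x _; exact σ.symm_apply_apply x
  · intro x _; exact σ.apply_symm_apply x

theorem sum_wt (p : V → X) (f : X → ℕ) : ∑ v, f (p v) = ∑ a, wt p a * f a := by
  rw [← Finset.sum_fiberwise' univ p f]
  apply sum_congr rfl
  intro a _
  rw [sum_const, smul_eq_mul]; rfl

theorem sum_wt_level (p : V → X) (f : X → ℕ) (s : ℕ) :
    ∑ v ∈ univ.filter (fun v => wt p (p v) = s), f (p v) =
      s * ∑ a ∈ univ.filter (fun a => wt p a = s), f a := by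
  have h1 := Finset.sum_fiberwise_eq_sum_filter' univ (univ.filter (fun a => wt p a = s)) p f
  have h2 : univ.filter (fun v => p v ∈ univ.filter (fun a => wt p a = s)) =
      univ.filter (fun v => wt p (p v) = s) := by
    ext v
    rw [mem_filter, mem_filter, mem_filter]
    exact ⟨fun h => ⟨mem_univ _, h.2.2⟩, fun h => ⟨mem_univ _, mem_univ _, h.2⟩⟩
  rw [h2] at h1
  rw [← h1, mul_sum]
  apply sum_congr rfl
  intro a ha
  rw [sum_const, smul_eq_mul]
  congr 1
  exact (mem_filter.mp ha).2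

/-- the isomorphism given by an automorphism of `Q` which carries the sizes to the sizes -/
theorem iso_of_wt {G H : SimpleGraph V} {Q : SimpleGraph X} {p p' : V → X} (h : Quo G Q p)
    (h' : Quo H Q p') (γ : Equiv.Perm X) (hγ : γ ∈ AutQ Q) (hw : ∀ a, wt p a = wt p' (γ a)) :
    ∃ σ : Equiv.Perm V, ∀ x y, H.Adj (σ x) (σ y) ↔ G.Adj x y := by
  have e : ∀ a, Nonempty ({v // p v = a} ≃ {v // p' v = γ a}) := by
    intro a
    refine ⟨Fintype.equivOfCardEq ?_⟩
    rw [Fintype.card_subtype, Fintype.card_subtype]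
    exact hw a
  let σ : Equiv.Perm V := (Equiv.sigmaFiberEquiv p).symm.trans
    ((Equiv.sigmaCongr γ (fun a => (e a).some)).trans (Equiv.sigmaFiberEquiv p'))
  have hσ : ∀ x, p' (σ x) = γ (p x) := by
    intro x
    exact ((e (p x)).some ⟨x, rfl⟩).2
  refine ⟨σ, fun x y => ?_⟩
  rw [h'.adj, hσ, hσ, (mem_AutQ Q γ).mp hγ, h.adj]

/-- hypomorphic graphs which are not isomorphic: the sizes of the classes have the same cards -/
theorem same {G H : SimpleGraph V} {Q : SimpleGraph X} {p : V → X} (h : Quo G Q p)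
    (π : V → Equiv.Perm V) (hfix : ∀ v, π v v = v)
    (hadj : ∀ v x y, x ≠ v → y ≠ v → (H.Adj (π v x) (π v y) ↔ G.Adj x y))
    (hbig : Fintype.card X + 2 ≤ Fintype.card V)
    (hN : ¬ ∃ σ : Equiv.Perm V, ∀ x y, H.Adj (σ x) (σ y) ↔ G.Adj x y) :
    (∃ p' : V → X, Quo H Q p' ∧ Same (AutQ Q) Set.univ (wt p) (wt p')) ∧
      ∀ v, 2 ≤ wt p (p v) → ∃ u, wt p (p u) + 1 = wt p (p v) ∧
        dS G univ u = dS G univ v + if G.Adj u v then 1 else 0 := by
  have htw := twin_iff π hfix hadj (by rw [qq_eq h]; exact hbig)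
  -- vertices with twins
  have hnotinj : ¬ Function.Injective p := by
    intro hi
    have := Fintype.card_le_of_injective p hi
    omega
  obtain ⟨v₀, hv₀⟩ : ∃ v₀, HasTwin G v₀ := by
    unfold Function.Injective at hnotinj
    push Not at hnotinj
    obtain ⟨a, b, hab, hne⟩ := hnotinj
    exact ⟨b, a, hne, (nb_iff h _ _).mpr hab⟩
  obtain ⟨p', h'⟩ := exists_quo h v₀ (π v₀) (hfix v₀) (hadj v₀) hv₀ ((htw v₀).mp hv₀)
  set w := wt p with hw
  set w' := wt p' with hw'
  have hR : ∀ v, 2 ≤ w (p v) ↔ 2 ≤ w' (p' v) := by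
    intro v
    rw [hw, hw', ← hasTwin_iff h, ← hasTwin_iff h', htw]
  have hγ : ∀ v, 2 ≤ w (p v) → ∃ γ ∈ AutQ Q, ∀ a, low w (p v) a = low w' (p' v) (γ a) := by
    intro v hv
    have h1 : HasTwin G v := (hasTwin_iff h v).mpr hv
    obtain ⟨γ, h2, h3, _⟩ := card_aut h h' v (π v) (hfix v) (hadj v) h1 ((htw v).mp h1)
    exact ⟨γ, h2, h3⟩
  have hpos : ∀ a, 1 ≤ w a := by
    intro a
    obtain ⟨v, hv⟩ := h.surj a
    exact card_pos.mpr ⟨v, mem_filter.mpr ⟨mem_univ _, hv⟩⟩
  have hpos' : ∀ a, 1 ≤ w' a := by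
    intro a
    obtain ⟨v, hv⟩ := h'.surj a
    exact card_pos.mpr ⟨v, mem_filter.mpr ⟨mem_univ _, hv⟩⟩
  -- sums of squares
  have hsq : ∀ (c : X → ℕ) (z : X), 1 ≤ c z →
      ∑ a, (low c z a) ^ 2 + 2 * c z = ∑ a, (c a) ^ 2 + 1 := by
    intro c z hz
    rw [← Finset.add_sum_erase univ (fun a => (low c z a) ^ 2) (mem_univ z),
      ← Finset.add_sum_erase univ (fun a => (c a) ^ 2) (mem_univ z)]
    have h1 : ∑ a ∈ univ.erase z, (low c z a) ^ 2 = ∑ a ∈ univ.erase z, (c a) ^ 2 := by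
      apply sum_congr rfl
      intro a ha
      unfold low
      rw [if_neg (mem_erase.mp ha).1]
    rw [h1]
    have h2 : low c z z = c z - 1 := by unfold low; rw [if_pos rfl]
    rw [h2]
    obtain ⟨m, hm⟩ := Nat.exists_eq_add_of_le hz
    rw [hm]
    have : 1 + m - 1 = m := by omega
    rw [this]
    ring
  have hpair : ∀ v, 2 ≤ w (p v) →
      ∑ a, (w a) ^ 2 + 2 * w' (p' v) = ∑ a, (w' a) ^ 2 + 2 * w (p v) := by
    intro v hv
    obtain ⟨γ, _, hγ2⟩ := hγ v hv
    have h1 := hsq w (p v) (by omega)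
    have h2 := hsq w' (p' v) (hpos' _)
    have h3 : ∑ a, (low w (p v) a) ^ 2 = ∑ a, (low w' (p' v) a) ^ 2 := by
      rw [sum_congr rfl (fun a _ => by rw [hγ2 a])]
      exact Equiv.sum_comp γ (fun a => (low w' (p' v) a) ^ 2)
    omega
  set R := univ.filter (fun v => 2 ≤ w (p v)) with hRdef
  have hR' : R = univ.filter (fun v => 2 ≤ w' (p' v)) := by
    rw [hRdef]
    apply filter_congr
    intro v _
    exact hR v
  have hsumR : ∀ (q : V → X) (hq : ∀ a, 1 ≤ wt q a),
      ∑ v ∈ univ.filter (fun v => 2 ≤ wt q (q v)), wt q (q v) +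
        (univ.filter (fun v => ¬ 2 ≤ wt q (q v))).card = ∑ a, (wt q a) ^ 2 := by
    intro q hq
    have h1 : ∑ v, wt q (q v) = ∑ a, (wt q a) ^ 2 := by
      rw [sum_wt q (wt q)]
      apply sum_congr rfl
      intro a _
      rw [sq]
    rw [← h1, ← Finset.sum_filter_add_sum_filter_not univ (fun v => 2 ≤ wt q (q v))]
    congr 1
    rw [card_eq_sum_ones]
    apply sum_congr rfl
    intro v hv
    have h2 := (mem_filter.mp hv).2
    have h3 := hq (q v)
    omega
  have hs1 := hsumR p hpos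
  have hs2 := hsumR p' hpos'
  have hRn : univ.filter (fun v => ¬ 2 ≤ w (p v)) = univ.filter (fun v => ¬ 2 ≤ w' (p' v)) := by
    apply filter_congr
    intro v _
    rw [hR v]
  rw [← hw, ← hRdef] at hs1
  rw [← hw', ← hR', ← hRn] at hs2
  have hsum1 : R.card * ∑ a, (w a) ^ 2 + 2 * ∑ v ∈ R, w' (p' v) =
      R.card * ∑ a, (w' a) ^ 2 + 2 * ∑ v ∈ R, w (p v) := by
    have h1 : ∑ v ∈ R, (∑ a, (w a) ^ 2 + 2 * w' (p' v)) =
        ∑ v ∈ R, (∑ a, (w' a) ^ 2 + 2 * w (p v)) := by
      apply sum_congr rfl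
      intro v hv
      exact hpair v (mem_filter.mp hv).2
    rw [sum_add_distrib, sum_add_distrib, sum_const, sum_const, ← mul_sum, ← mul_sum,
      smul_eq_mul, smul_eq_mul] at h1
    exact h1
  have hR3 : 3 ≤ R.card := by
    have h1 : R.card + (univ.filter (fun v => ¬ 2 ≤ w (p v))).card = Fintype.card V := by
      rw [hRdef, card_filter_add_card_filter_not, card_univ]
    have h2 : (univ.filter (fun v => ¬ 2 ≤ w (p v))).card + 1 ≤ Fintype.card X := by
      have h3 : ((univ.filter (fun v => ¬ 2 ≤ w (p v))).image p).card =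
          (univ.filter (fun v => ¬ 2 ≤ w (p v))).card := by
        apply card_image_of_injOn
        intro x hx y hy hxy
        by_contra hne
        rw [mem_coe, mem_filter] at hx
        apply hx.2
        rw [hw, ← hasTwin_iff h]
        exact ⟨y, fun e => hne e.symm, (nb_iff h _ _).mpr hxy.symm⟩
      rw [← h3, Nat.succ_le_iff]
      apply card_lt_univ_of_notMem (x := p v₀)
      intro hmem
      rw [mem_image] at hmem
      obtain ⟨x, hx, hxv⟩ := hmem
      apply (mem_filter.mp hx).2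
      rw [hxv]
      exact (hasTwin_iff h v₀).mp hv₀
    omega
  have hSS : ∑ a, (w a) ^ 2 = ∑ a, (w' a) ^ 2 := by
    have e1 : ((R.card : ℤ) - 2) * ((∑ a, (w a) ^ 2 : ℕ) : ℤ) =
        ((R.card : ℤ) - 2) * ((∑ a, (w' a) ^ 2 : ℕ) : ℤ) := by
      have h1 : ((R.card * ∑ a, (w a) ^ 2 + 2 * ∑ v ∈ R, w' (p' v) : ℕ) : ℤ) =
        ((R.card * ∑ a, (w' a) ^ 2 + 2 * ∑ v ∈ R, w (p v) : ℕ) : ℤ) := by rw [hsum1]
      have h2 : ((∑ v ∈ R, w (p v) + (univ.filter (fun v => ¬ 2 ≤ w (p v))).card : ℕ) : ℤ) =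
        ((∑ a, (w a) ^ 2 : ℕ) : ℤ) := by rw [hs1]
      have h3 : ((∑ v ∈ R, w' (p' v) + (univ.filter (fun v => ¬ 2 ≤ w (p v))).card : ℕ) : ℤ) =
        ((∑ a, (w' a) ^ 2 : ℕ) : ℤ) := by rw [hs2]
      rw [Nat.cast_add, Nat.cast_add, Nat.cast_mul, Nat.cast_mul, Nat.cast_mul, Nat.cast_mul] at h1
      rw [Nat.cast_add] at h2 h3
      linear_combination h1 + 2 * h2 - 2 * h3
    have h4 : (R.card : ℤ) - 2 ≠ 0 := by omega
    exact_mod_cast mul_left_cancel₀ h4 e1
  have hww : ∀ v, 2 ≤ w (p v) → w' (p' v) = w (p v) := by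
    intro v hv
    have := hpair v hv
    omega
  have hlevels : ∀ s, 2 ≤ s → univ.filter (fun v => w (p v) = s) =
      univ.filter (fun v => w' (p' v) = s) := by
    intro s hs
    apply filter_congr
    intro v _
    constructor
    · intro h1
      rw [hww v (by omega), h1]
    · intro h1
      have h2 : 2 ≤ w (p v) := (hR v).mpr (by omega)
      rw [← hww v h2, h1]
  have hone : (1 : Equiv.Perm X) ∈ AutQ Q := (mem_AutQ _ _).mpr (fun a b => Iff.rfl)
  have hmul : ∀ γ ∈ AutQ Q, ∀ δ ∈ AutQ Q, γ * δ ∈ AutQ Q := by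
    intro γ hγ δ hδ
    rw [mem_AutQ] at hγ hδ ⊢
    intro a b
    rw [Equiv.Perm.mul_apply, Equiv.Perm.mul_apply, hγ, hδ]
  have hinv : ∀ γ ∈ AutQ Q, γ⁻¹ ∈ AutQ Q := by
    intro γ hγ
    rw [mem_AutQ] at hγ ⊢
    intro a b
    have h1 : ∀ a, γ (γ⁻¹ a) = a := by
      intro a
      rw [← Equiv.Perm.mul_apply, mul_inv_cancel]; rfl
    rw [← hγ, h1, h1]
  have hne : ∀ γ ∈ AutQ Q, ∃ x, w x ≠ w' (γ x) := by
    intro γ hγ1
    by_contra hcon
    push Not at hcon
    exact hN (iso_of_wt h h' γ hγ1 hcon)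
  refine ⟨⟨p', h', hone, hmul, hinv, ?_, ?_, ?_, hne, hpos, ?_⟩, ?_⟩
  · -- the deck
    intro s _ hs Ψ hΨ
    have h1 := sum_wt_level p (fun z => Ψ (low w z)) s
    have h2 := sum_wt_level p' (fun z => Ψ (low w' z)) s
    rw [← hw] at h1
    rw [← hw', ← hlevels s hs] at h2
    have h3 : ∑ v ∈ univ.filter (fun v => w (p v) = s), Ψ (low w (p v)) =
        ∑ v ∈ univ.filter (fun v => w (p v) = s), Ψ (low w' (p' v)) := by
      apply sum_congr rfl
      intro v hv
      obtain ⟨γ, hγ1, hγ2⟩ := hγ v (by rw [(mem_filter.mp hv).2]; exact hs)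
      rw [← hΨ (low w' (p' v)) γ hγ1]
      congr 1
      funext a
      exact hγ2 a
    have h4 : s * ∑ z ∈ univ.filter (fun z => w z = s), Ψ (low w z) =
        s * ∑ z ∈ univ.filter (fun z => w' z = s), Ψ (low w' z) := by
      rw [← h1, ← h2, h3]
    exact Nat.eq_of_mul_eq_mul_left (by omega) h4
  · -- the distribution
    intro j
    have hv : 2 ≤ w (p v₀) := (hasTwin_iff h v₀).mp hv₀
    obtain ⟨γ, hγ1, hγ2⟩ := hγ v₀ hv
    have h1 : lev univ (low w (p v₀)) j = lev univ (low w' (p' v₀)) j := by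
      have h2 : low w (p v₀) = fun a => low w' (p' v₀) (γ a) := funext hγ2
      rw [h2]
      exact lev_inv hinv univ (fun γ _ x _ => mem_univ _) _ j hγ1
    have hs := hww v₀ hv
    show lev univ w' j = lev univ w j
    by_cases hj : j = w (p v₀)
    · have h3 := lev_low_eq univ w j (by omega) (p v₀) hj.symm
      have h4 := lev_low_eq univ w' j (by omega) (p' v₀) (by rw [hs, hj])
      rw [if_pos (mem_univ _)] at h3 h4
      omega
    · have h3 := lev_low_ne univ w (w (p v₀)) j hj (p v₀) rfl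
      have h4 := lev_low_ne univ w' (w (p v₀)) j hj (p' v₀) hs
      omega
  · -- the sum
    have h1 := sum_wt p (fun _ => 1)
    have h2 := sum_wt p' (fun _ => 1)
    simp only [mul_one] at h1 h2
    rw [← h1, ← h2]
  · have h1 := sum_wt p (fun _ => 1)
    simp only [mul_one] at h1
    rw [sum_const, smul_eq_mul, mul_one, card_univ] at h1
    rw [← h1]
    exact hbig
  · -- the degrees
    intro v hv
    have hG : HasTwin G v := (hasTwin_iff h v).mpr hv
    obtain ⟨v₁, hv₁, hv₂⟩ := (htw v).mp hG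
    have hHy : Hypo G H π := ⟨hfix, hadj⟩
    set u := (π v).symm v₁ with hu
    have hπu : π v u = v₁ := (π v).apply_symm_apply v₁
    have huv : u ≠ v := by
      intro e
      apply hv₁
      rw [← hπu, e, hfix]
    have hp1 : p' v₁ = p' v := (nb_iff h' _ _).mp hv₂
    -- the sizes
    obtain ⟨γ, hγ1, hγ2, hγ3⟩ := card_aut h h' v (π v) (hfix v) (hadj v) hG ((htw v).mp hG)
    have hγu : γ (p u) = p' v := by rw [← hγ3 u huv, hπu, hp1]
    have hsize := hγ2 (p u)
    have hw1 : low w' (p' v) (p' v) = w (p v) - 1 := by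
      unfold low
      rw [if_pos rfl, hww v hv]
    rw [hγu, ← hw', ← hw, hw1] at hsize
    refine ⟨u, ?_, ?_⟩
    · by_cases hpu : p u = p v
      · exfalso
        obtain ⟨x, hx⟩ := hne γ hγ1
        apply hx
        rw [hpu] at hγu
        by_cases hxv : x = p v
        · rw [hxv, hγu, hww v hv]
        · have h6 := hγ2 x
          rw [← hw', ← hw] at h6
          unfold low at h6
          rw [if_neg hxv, if_neg] at h6
          · exact h6
          · intro e
            apply hxv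
            apply γ.injective
            rw [e, hγu]
      · unfold low at hsize
        rw [if_neg hpu] at hsize
        omega
    · have h1 : dS G univ v = dS H univ v :=
        dS_eq hHy univ (fun _ _ _ _ => mem_univ _) (hR3.trans (card_le_univ R)) v (mem_univ v)
      have h2 : dS H univ v = dS H univ v₁ := by
        unfold dS
        congr 1
        ext z
        rw [mem_filter, mem_filter, ← mem_nb, ← mem_nb, hv₂]
      have h3 := dS_erase H v₁ v
      have h4 : ¬ H.Adj v₁ v := by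
        rw [← mem_nb, hv₂, mem_nb]
        exact fun e => absurd rfl e.ne
      rw [if_neg h4] at h3
      have h5 := dS_card hHy u v huv
      rw [hπu] at h5
      have h6 := dS_erase G u v
      omega

end Run7.h357.TW
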