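import Pool.Agent.Run7.h357.TW.Fin

set_option autoImplicit false
set_option linter.unusedSectionVars false

/-!
The reduced graph and the numbers of the classes of given size are reconstructible.
-/

namespace Run7.h357.TW

open Finset Classical
open Pool.Agent.H234RC (Hypo NonIso SameDeck card_iso)

variable {V W : Type} [Fintype V] [Fintype W]

/-- the hypomorphic graph on the same vertex set -/
theorem hypo_of_deck (G : SimpleGraph V) (H : SimpleGraph W) (h : SameDeck G H) :
    ∃ (f : V ≃ W) (π : V → Equiv.Perm V), Hypo G (H.comap f) π := by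
  obtain ⟨f, hf⟩ := h
  have h1 : ∀ v, ∃ σ : Equiv.Perm V, σ v = v ∧ ∀ x y, x ≠ v → y ≠ v →
      (H.Adj (f (σ x)) (f (σ y)) ↔ G.Adj x y) := by
    intro v
    obtain ⟨e, he⟩ := card_iso G H v (f v) (hf v)
    let g : {x : V // x ≠ v} ≃ {x : V // x ≠ v} :=
      e.trans ((f.symm.subtypeEquiv (fun y => by
        constructor
        · intro h h'
          apply h
          rw [← h', Equiv.apply_symm_apply]
        · intro h h'
          apply h
          rw [h', Equiv.symm_apply_apply])))
    have hg : ∀ x, f (g x : V) = (e x : W) := by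
      intro x
      show f (f.symm (e x)) = _
      simp
    let σ : Equiv.Perm V := g.extendSubtype
    refine ⟨σ, ?_, ?_⟩
    · by_contra hne
      have : ¬ (¬ (σ v ≠ v)) := not_not.mpr hne
      exact this (g.extendSubtype_not_mem v (fun h => h rfl))
    · intro x y hx hy
      have ex : σ x = g ⟨x, hx⟩ := g.extendSubtype_apply_of_mem x hx
      have ey : σ y = g ⟨y, hy⟩ := g.extendSubtype_apply_of_mem y hy
      rw [ex, ey, hg, hg]
      exact he _ _
  choose π hπ1 hπ2 using h1
  exact ⟨f, π, hπ1, fun v x y hx hy => hπ2 v x y hx hy⟩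

/-- a projection of `H.comap f` gives the isomorphism of the reduced graphs -/
theorem red_iso {X : Type} [Fintype X] {Q : SimpleGraph X} (H : SimpleGraph W) (f : V ≃ W)
    {p' : V → X} (h' : Quo (H.comap f) Q p') {Y : Finset W} (hY : Reps H Y) :
    ∃ e : X ≃ Y, (∀ a b : X, H.Adj (e a) (e b) ↔ Q.Adj a b) ∧ ∀ a : X, size H (e a) = wt p' a := by
  choose r hr using h'.surj
  have hadj : ∀ a b, H.Adj (rep hY (f (r a)) : W) (rep hY (f (r b)) : W) ↔ Q.Adj a b := by
    intro a b
    rw [← rep_twin hY (f (r a)), H.adj_comm, ← rep_twin hY (f (r b)), H.adj_comm]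
    have h1 : (H.comap f).Adj (r a) (r b) ↔ Q.Adj (p' (r a)) (p' (r b)) := h'.adj _ _
    rw [hr, hr] at h1
    exact h1
  have htw : ∀ v v' : V, p' v = p' v' ↔ Twin H (f v) (f v') := by
    intro v v'
    rw [← nb_iff h']
    constructor
    · intro h z
      have h1 : f.symm z ∈ nb (H.comap f) v ↔ f.symm z ∈ nb (H.comap f) v' := by rw [h]
      rw [mem_nb, mem_nb, SimpleGraph.comap_adj, SimpleGraph.comap_adj, f.apply_symm_apply] at h1
      exact h1
    · intro h
      ext z
      rw [mem_nb, mem_nb, SimpleGraph.comap_adj, SimpleGraph.comap_adj]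
      exact h (f z)
  have hinj : Function.Injective (fun a => rep hY (f (r a))) := by
    intro a b hab
    have hab' : rep hY (f (r a)) = rep hY (f (r b)) := hab
    apply h'.free
    intro c
    rw [← hadj a c, ← hadj b c, hab']
  have hsurj : Function.Surjective (fun a => rep hY (f (r a))) := by
    intro y
    refine ⟨p' (f.symm y), ?_⟩
    apply rep_eq
    have h1 := (htw (r (p' (f.symm y))) (f.symm y)).mp (hr _)
    rw [f.apply_symm_apply] at h1
    exact h1
  refine ⟨Equiv.ofBijective _ ⟨hinj, hsurj⟩, hadj, fun a => ?_⟩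
  show size H (rep hY (f (r a)) : W) = _
  unfold size
  symm
  have h1 : (univ.filter (fun y => Twin H (rep hY (f (r a)) : W) y)).card =
      ((univ.filter (fun y => Twin H (rep hY (f (r a)) : W) y)).map f.symm.toEmbedding).card := by
    rw [card_map]
  rw [h1]
  apply wt_eq_card
  intro v
  rw [mem_map]
  constructor
  · rintro ⟨y, hy, rfl⟩
    rw [mem_filter] at hy
    have h2 : Twin H (f (r a)) y := (rep_twin hY (f (r a))).trans hy.2
    have h3 := (htw (r a) (f.symm y)).mpr (by rw [f.apply_symm_apply]; exact h2)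
    rw [hr] at h3
    exact h3.symm
  · intro h
    refine ⟨f v, ?_, f.symm_apply_apply v⟩
    rw [mem_filter]
    refine ⟨mem_univ _, ?_⟩
    have h2 : Twin H (f (r a)) (f v) := (htw (r a) v).mp (by rw [hr, h])
    exact (rep_twin hY (f (r a))).symm.trans h2

/-- **The reduced graph is reconstructible.** -/
theorem reduced (G : SimpleGraph V) (H : SimpleGraph W) (hd : SameDeck G H) {X : Finset V}
    (hX : Reps G X) {Y : Finset W} (hY : Reps H Y) (hbig : X.card + 2 ≤ Fintype.card V) :
    ∃ e : X ≃ Y, (∀ a b : X, H.Adj (e a) (e b) ↔ G.Adj a b) ∧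
      ∀ O ⊆ X, (∀ σ, IsAut G X σ → ∀ x : X, (x : V) ∈ O → (σ x : V) ∈ O) → ∀ s,
        (univ.filter (fun x : X => (x : V) ∈ O ∧ size G x = s)).card =
          (univ.filter (fun x : X => (x : V) ∈ O ∧ size H (e x) = s)).card := by
  obtain ⟨f, π, hH⟩ := hypo_of_deck G H hd
  by_cases hiso : ∃ σ : Equiv.Perm V, ∀ x y, (H.comap f).Adj (σ x) (σ y) ↔ G.Adj x y
  · obtain ⟨σ, hσ⟩ := hiso
    have hq : Quo (H.comap f) (ind G X) (fun v => rep hX (σ.symm v)) := by
      have h1 := quo hX
      refine ⟨?_, ?_, h1.free⟩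
      · intro a
        obtain ⟨v, hv⟩ := h1.surj a
        exact ⟨σ v, by show rep hX (σ.symm (σ v)) = a; rw [σ.symm_apply_apply, hv]⟩
      · intro x y
        rw [← h1.adj, ← hσ, σ.apply_symm_apply, σ.apply_symm_apply]
    obtain ⟨e, he1, he2⟩ := red_iso H f hq hY
    refine ⟨e, he1, fun O _ _ s => ?_⟩
    congr 1
    apply filter_congr
    intro x _
    have h2 : size H (e x) = size G x := by
      rw [he2, ← wt_rep hX x]
      rw [wt_eq_card (fun v => rep hX (σ.symm v)) x
        ((univ.filter (fun v => rep hX v = x)).map σ.toEmbedding)]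
      · rw [card_map]
        symm
        apply wt_eq_card
        intro v
        rw [mem_filter]
        exact ⟨fun h => h.2, fun h => ⟨mem_univ _, h⟩⟩
      · intro v
        rw [mem_map]
        constructor
        · rintro ⟨y, hy, rfl⟩
          rw [mem_filter] at hy
          show rep hX (σ.symm (σ y)) = x
          rw [σ.symm_apply_apply]
          exact hy.2
        · intro h
          exact ⟨σ.symm v, mem_filter.mpr ⟨mem_univ _, h⟩, σ.apply_symm_apply v⟩
    rw [h2]
  · obtain ⟨⟨p', hq, hS⟩, _⟩ := core hH hiso hX hbig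
    obtain ⟨e, he1, he2⟩ := red_iso H f hq hY
    refine ⟨e, he1, fun O _ hO s => ?_⟩
    set O' := univ.filter (fun x : X => (x : V) ∈ O) with hO'
    have hinv : ∀ γ ∈ AutQ (ind G X), ∀ x ∈ O', γ x ∈ O' := by
      intro γ hγ x hx
      rw [hO', mem_filter] at hx ⊢
      exact ⟨mem_univ _, hO γ ((mem_AutQ _ _).mp hγ) x hx.2⟩
    have h1 := lev_eq hS O' hinv s
    have h2 := lev_eq hS O' hinv (s + 1)
    have h3 := lev_split O' (fun a : X => size G a) s
    have h4 := lev_split O' (wt p') s
    have h5 : (O'.filter (fun x => wt p' x = s)).card =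
        (univ.filter (fun x : X => (x : V) ∈ O ∧ size H (e x) = s)).card := by
      congr 1
      ext x
      rw [mem_filter, hO', mem_filter, mem_filter, he2]
      exact ⟨fun h => ⟨mem_univ _, h.1.2, h.2⟩, fun h => ⟨⟨mem_univ _, h.2.1⟩, h.2.2⟩⟩
    have h6 : (O'.filter (fun x : X => size G x = s)).card =
        (univ.filter (fun x : X => (x : V) ∈ O ∧ size G x = s)).card := by
      congr 1
      ext x
      rw [mem_filter, hO', mem_filter, mem_filter]
      exact ⟨fun h => ⟨mem_univ _, h.1.2, h.2⟩, fun h => ⟨⟨mem_univ _, h.2.1⟩, h.2.2⟩⟩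
    rw [← h5, ← h6]
    omega

end Run7.h357.TW
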